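import Pool.Agent.Lib.MP_979eef_lc.K.Defs

/-!
# Composition of formulas without hazards: notions

The proof is written in /team-store/MONOKRW3.md.
-/

set_option autoImplicit false

namespace MP979

open Finset

/-! ### Three-valued evaluation and hazards -/

/-- Kleene's AND on `0, 1, u`; the unstable value `u` is `none`. -/
def kand : Option Bool → Option Bool → Option Bool
  | some false, _ => some false
  | some true, q => q
  | none, some false => some false
  | none, _ => none

/-- Kleene's OR on `0, 1, u`. -/
def kor : Option Bool → Option Bool → Option Bool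
  | some true, _ => some true
  | some false, q => q
  | none, some true => some true
  | none, _ => none

/-- Kleene's three-valued value of a formula. -/
def Fml.kleene {ι : Type} (x : ι → Option Bool) : Fml ι → Option Bool
  | .lit i b => (x i).map (fun c => c == b)
  | .and p q => kand (p.kleene x) (q.kleene x)
  | .or p q => kor (p.kleene x) (q.kleene x)

/-- The Boolean assignment `y` is a resolution of the three-valued assignment `x`. -/
def Resolves {ι : Type} (x : ι → Option Bool) (y : ι → Bool) : Prop :=
  ∀ i b, x i = some b → y i = b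

/-- The formula has no hazard in `U`: if the unstable variables of `x` lie in `U` and the formula has
the value `c` at all resolutions of `x`, then its Kleene value at `x` is `c`. -/
def Fml.HazardFree {ι : Type} (U : Set ι) (F : Fml ι) : Prop :=
  ∀ (x : ι → Option Bool) (c : Bool), (∀ i, x i = none → i ∈ U) →
    (∀ y : ι → Bool, Resolves x y → F.eval y = c) → F.kleene x = some c

/-! ### Restrictions -/

/-- `f` with the variables outside `B` replaced by the constants `c`. -/
def restr {n : ℕ} (f : (Fin n → Bool) → Bool) (B : Finset (Fin n)) (c a : Fin n → Bool) : Bool :=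
  f (fun i => if i ∈ B then a i else c i)

open Classical in
/-- The blocks with at least `m` variables in `U`. -/
noncomputable def blocksOf {n : ℕ} (m : ℕ) (U : Set (Fin n × Fin n)) : Finset (Fin n) :=
  univ.filter (fun i => m ≤ (univ.filter (fun j : Fin n => (i, j) ∈ U)).card)

/-! ### Dual rails -/

/-- The formula as a monotone formula of its literals. -/
def Fml.dl {ι : Type} : Fml ι → Fml (ι × Bool)
  | .lit i b => .lit (i, b) true
  | .and p q => .and p.dl q.dl
  | .or p q => .or p.dl q.dl

/-- The literals which are true at all resolutions. -/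
def rlo {ι : Type} (a : ι → Option Bool) (p : ι × Bool) : Bool := decide (a p.1 = some p.2)

/-- The literals which are true at some resolution. -/
def rhi {ι : Type} (a : ι → Option Bool) (p : ι × Bool) : Bool := decide (a p.1 ≠ some (!p.2))

/-- `φ`, a monotone formula of the literals, computes `h` without hazards. -/
def Computes {n : ℕ} (φ : MF (Fin n × Bool)) (h : (Fin n → Bool) → Bool) : Prop :=
  ∀ a : Fin n → Option Bool, ((∀ y, Resolves a y → h y = true) → φ.eval (rlo a) = true) ∧
    ((∀ y, Resolves a y → h y = false) → φ.eval (rhi a) = false)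

/-! ### Tables of literals -/

variable {n m N : ℕ}

/-- Light table: row `(i, c)` is `{v i}` if `z (i, c)`, and empty otherwise. -/
def lowR (v : Fin n → Fin m) (z : Fin n × Bool → Bool) (p : Fin n × Bool) (j : Fin m) : Bool :=
  z p && decide (j = v p.1)

/-- Heavy table: row `(i, c)` is everything if `z (i, c)`, and everything but `v i` otherwise. -/
def highR (v : Fin n → Fin m) (z : Fin n × Bool → Bool) (p : Fin n × Bool) (j : Fin m) : Bool :=
  z p || decide (j ≠ v p.1)

/-- Monotone functions of a table of literals. -/
def MonoTabR (H : (Fin n × Bool → Fin m → Bool) → Bool) : Prop :=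
  ∀ S T : Fin n × Bool → Fin m → Bool, (∀ p j, S p j = true → T p j = true) →
    H S = true → H T = true

/-- `z` is robustly undecided. -/
def HardR (t : ℕ) (H : (Fin n × Bool → Fin m → Bool) → Bool) (v : Fin n → Fin m) : Prop :=
  ∃ z : Fin n × Bool → Bool, ∀ A : Finset (Fin n), A.card ≤ t →
    H (lowR v (fun p => if p.1 ∈ A then z p else true)) = true ∧
      H (highR v (fun p => if p.1 ∈ A then z p else false)) = false

/-! ### The inner function -/

/-- Sets avoiding the range of `μ`, and pairwise far from each other. -/
structure Code (kap : Fin n → (Fin m → Fin n) → Fin N → Finset (Fin n)) : Prop where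
  avoid : ∀ i μ s j, μ j ∉ kap i μ s
  far : ∀ i μ s i' μ' s', (kap i' μ' s' \ kap i μ s).card ≤ m → i = i' ∧ μ = μ' ∧ s = s'

/-- The inner function, a monotone DNF. -/
def gfunR (kap : Fin n → (Fin m → Fin n) → Fin N → Finset (Fin n)) (e : Fin n → Fin N → Fin m)
    (x : Fin n → Bool) : Bool :=
  decide (∃ i μ s, (∀ k ∈ kap i μ s, x k = true) ∧ x (μ (e i s)) = true)

/-- The values of the literals `((i, k), c)`: block `i` is constant `b` if `C i = some b`; if
`C i = none` its position `M i j` has the literals `T (i, c) j`, and the others are given by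
`kap i (M i) (σ i)`. -/
def lits (kap : Fin n → (Fin m → Fin n) → Fin N → Finset (Fin n)) (C : Fin n → Option Bool)
    (M : Fin n → Fin m → Fin n) (σ : Fin n → Fin N) (T : Fin n × Bool → Fin m → Bool)
    (p : (Fin n × Fin n) × Bool) : Bool :=
  match C p.1.1 with
  | some b => decide (b = p.2)
  | none => decide ((∃ j, M p.1.1 j = p.1.2 ∧ T (p.1.1, p.2) j = true) ∨
      ((∀ j, M p.1.1 j ≠ p.1.2) ∧ decide (p.1.2 ∈ kap p.1.1 (M p.1.1) (σ p.1.1)) = p.2))

/-- Total separation cost at most `c` over all samples `σ`. -/
def CostR (kap : Fin n → (Fin m → Fin n) → Fin N → Finset (Fin n)) (e : Fin n → Fin N → Fin m)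
    (C : Fin n → Option Bool) (M : Fin n → Fin m → Fin n)
    (h : ((Fin n × Fin n) × Bool → Bool) → Bool) (c : ℕ) : Prop :=
  ∃ s : (Fin n → Fin N) → ℕ,
    (∀ σ, Sep (s σ) (fun z => h (lits kap C M σ (lowR (pick e σ) z)))
      (fun z => h (lits kap C M σ (highR (pick e σ) z)))) ∧ ∑ σ, s σ ≤ c

end MP979
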