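import Pool.Agent.Lib.MP_979eef_lc.K.NumS
import Pool.Agent.Lib.MP_979eef_lc.H.Defs

/-!
# Module CodeR

Greedy choice. Let `u = (n - m) / 2` and `I = Fin n × (Fin m → Fin n) × Fin N`, `n * n ^ m * N` indices.
Candidates for the index `(i, μ, s)`: the `u`-subsets of the complement of the range of `μ`; there are
at least `(n - m).choose u` of them (the complement has at least `n - m` elements,
`Nat.choose_le_choose`, `card_powersetCard`). A set `κ` forbids the `u`-sets `κ'` with
`(κ' \ κ).card ≤ m`; `κ' ↦ (κ' \ κ, κ \ κ')` is injective and both sets have the same number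
`≤ m` of elements (`Finset.card_sdiff_comm`-like: both `u`-sets), so at most `(nsub n m) ^ 2 ≤
(n + 1) ^ (2 * m)` sets `κ'` are forbidden (`nsub n m ≤ (n + 1) ^ m`: `card_nsub_le`, the sets of at
most `m` elements are images of maps `Fin m → Option (Fin n)`, or `Finset.powersetCard` sum). By
induction over a finset `J` of indices there is a choice on `J` which is good for any two different
members of `J`: fewer than `I` earlier sets are forbidding (the new one is not in `J`), each at most
`(n + 1) ^ (2 * m)`. Since `κ \ κ'` and `κ' \ κ` have the same size, both orders are fine.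
For different indices the sets are far; for equal indices there is nothing to prove.
-/

set_option autoImplicit false

namespace MP979

open Finset

private theorem CodeR_sum (n m : ℕ) : ∑ k ∈ range (m + 1), n.choose k ≤ (n + 1) ^ m := by
  induction m with
  | zero => simp
  | succ m ih =>
    have h1 : ∀ k, n.choose (k + 1) ≤ n * n.choose k := by
      intro k
      have h2 := Nat.choose_succ_right_eq n k
      calc n.choose (k + 1) ≤ n.choose (k + 1) * (k + 1) := Nat.le_mul_of_pos_right _ (by omega)
        _ = n.choose k * (n - k) := h2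
        _ ≤ n.choose k * n := Nat.mul_le_mul_left _ (by omega)
        _ = n * n.choose k := mul_comm _ _
    rw [sum_range_succ']
    have h3 : ∑ k ∈ range (m + 1), n.choose (k + 1) ≤ n * ∑ k ∈ range (m + 1), n.choose k := by
      rw [mul_sum]
      exact sum_le_sum (fun k _ => h1 k)
    have h4 : 1 ≤ (n + 1) ^ m := Nat.one_le_pow _ _ (by omega)
    have h5 : n * ∑ k ∈ range (m + 1), n.choose k ≤ n * (n + 1) ^ m := Nat.mul_le_mul_left _ ih
    rw [Nat.choose_zero_right, pow_succ]
    nlinarith

theorem nsub_le_pow (n m : ℕ) : nsub n m ≤ (n + 1) ^ m := by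
  refine le_trans ?_ (CodeR_sum n m)
  unfold nsub
  have hsub : (univ.filter (fun A : Finset (Fin n) => A.card ≤ m)) ⊆
      (range (m + 1)).biUnion (fun k => powersetCard k (univ : Finset (Fin n))) := by
    intro A hA
    rw [mem_filter] at hA
    rw [mem_biUnion]
    exact ⟨A.card, mem_range.2 (by omega), mem_powersetCard.2 ⟨subset_univ _, rfl⟩⟩
  refine le_trans (card_le_card hsub) (le_trans card_biUnion_le (le_of_eq ?_))
  refine sum_congr rfl (fun k _ => ?_)
  rw [card_powersetCard, card_univ, Fintype.card_fin]

open Classical in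
private theorem CodeR_greedy {I A : Type} [Fintype I] [Inhabited A] (cand : I → Finset A)
    (R : A → A → Prop) (hR : ∀ a b, R a b → R b a) (D : ℕ) (hD1 : 1 ≤ D)
    (hD : ∀ i a, ((cand i).filter (fun b => R a b)).card ≤ D)
    (hc : ∀ i, Fintype.card I * D ≤ (cand i).card) (J : Finset I) :
    ∃ κ : I → A, (∀ i ∈ J, κ i ∈ cand i) ∧ ∀ i ∈ J, ∀ j ∈ J, i ≠ j → ¬ R (κ i) (κ j) := by
  induction J using Finset.induction_on with
  | empty => exact ⟨fun _ => default, fun i hi => absurd hi (notMem_empty i),
      fun i hi => absurd hi (notMem_empty i)⟩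
  | insert i0 J hi0 ih =>
    obtain ⟨κ, h1, h2⟩ := ih
    have hcard : (J.biUnion (fun j => (cand i0).filter (fun b => R (κ j) b))).card <
        (cand i0).card := by
      have h3 : (J.biUnion (fun j => (cand i0).filter (fun b => R (κ j) b))).card ≤ J.card * D :=
        card_biUnion_le_card_mul _ _ _ (fun j _ => hD i0 (κ j))
      have h4 : (insert i0 J).card ≤ Fintype.card I := card_le_univ _
      rw [card_insert_of_notMem hi0] at h4
      have h5 : (J.card + 1) * D ≤ Fintype.card I * D := Nat.mul_le_mul_right _ h4
      have h6 := hc i0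
      rw [add_mul, one_mul] at h5
      omega
    obtain ⟨b, hb1, hb2⟩ := exists_mem_notMem_of_card_lt_card hcard
    have hb3 : ∀ j ∈ J, ¬ R (κ j) b := by
      intro j hj hRb
      exact hb2 (mem_biUnion.2 ⟨j, hj, mem_filter.2 ⟨hb1, hRb⟩⟩)
    refine ⟨Function.update κ i0 b, ?_, ?_⟩
    · intro i hi
      by_cases hii : i = i0
      · subst hii
        rw [Function.update_self]
        exact hb1
      · rw [Function.update_of_ne hii]
        exact h1 i ((mem_insert.1 hi).resolve_left hii)
    · intro i hi j hj hij
      by_cases hii : i = i0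
      · have hjj : j ≠ i0 := fun h => hij (hii.trans h.symm)
        rw [hii, Function.update_self, Function.update_of_ne hjj]
        intro h
        exact hb3 j ((mem_insert.1 hj).resolve_left hjj) (hR _ _ h)
      · by_cases hjj : j = i0
        · rw [hjj, Function.update_self, Function.update_of_ne hii]
          exact hb3 i ((mem_insert.1 hi).resolve_left hii)
        · rw [Function.update_of_ne hii, Function.update_of_ne hjj]
          exact h2 i ((mem_insert.1 hi).resolve_left hii) j ((mem_insert.1 hj).resolve_left hjj) hij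

open Classical in
private theorem CodeR_ball {n m : ℕ} (S : Finset (Finset (Fin n))) (a : Finset (Fin n))
    (Q : Finset (Fin n) → Prop) (hQ : ∀ b, Q b → (a \ b).card ≤ m ∧ (b \ a).card ≤ m) :
    (S.filter (fun b => Q b)).card ≤ (n + 1) ^ (2 * m) := by
  have h1 : (S.filter (fun b => Q b)).card ≤
      ((univ.filter (fun A : Finset (Fin n) => A.card ≤ m)) ×ˢ
        (univ.filter (fun A : Finset (Fin n) => A.card ≤ m))).card := by
    refine card_le_card_of_injOn (fun b => (a \ b, b \ a)) ?_ ?_
    · intro b hb
      have hb' := hQ b (mem_filter.1 hb).2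
      exact mem_product.2 ⟨mem_filter.2 ⟨mem_univ _, hb'.1⟩, mem_filter.2 ⟨mem_univ _, hb'.2⟩⟩
    · intro b _ b' _ hbb
      have e1 : a \ b = a \ b' := congrArg Prod.fst hbb
      have e2 : b \ a = b' \ a := congrArg Prod.snd hbb
      ext x
      have f1 : x ∈ a \ b ↔ x ∈ a \ b' := by rw [e1]
      have f2 : x ∈ b \ a ↔ x ∈ b' \ a := by rw [e2]
      rw [mem_sdiff, mem_sdiff] at f1 f2
      tauto
  refine le_trans h1 ?_
  rw [card_product, two_mul, pow_add]
  exact Nat.mul_le_mul (nsub_le_pow n m) (nsub_le_pow n m)

theorem exists_code {n m N : ℕ}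
    (h : n * n ^ m * N * (n + 1) ^ (2 * m) ≤ (n - m).choose ((n - m) / 2)) :
    ∃ kap : Fin n → (Fin m → Fin n) → Fin N → Finset (Fin n), Code kap := by
  classical
  have hcardI : Fintype.card (Fin n × (Fin m → Fin n) × Fin N) = n * n ^ m * N := by
    rw [Fintype.card_prod, Fintype.card_prod, Fintype.card_fun, Fintype.card_fin, Fintype.card_fin,
      Fintype.card_fin, mul_assoc]
  obtain ⟨κ, h1, h2⟩ := CodeR_greedy (I := Fin n × (Fin m → Fin n) × Fin N)
    (A := Finset (Fin n))
    (fun p => powersetCard ((n - m) / 2) (univ.image p.2.1)ᶜ)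
    (fun a b => (a \ b).card ≤ m ∧ (b \ a).card ≤ m) (fun a b hab => ⟨hab.2, hab.1⟩)
    ((n + 1) ^ (2 * m)) (Nat.one_le_pow _ _ (by omega))
    (fun p a => CodeR_ball _ a _ (fun b hb => hb)) (by
      intro p
      rw [hcardI, card_powersetCard]
      refine le_trans h (Nat.choose_le_choose _ ?_)
      rw [card_compl, Fintype.card_fin]
      have : (univ.image p.2.1).card ≤ m := by
        refine le_trans card_image_le (le_of_eq ?_)
        rw [card_univ, Fintype.card_fin]
      omega) univ
  refine ⟨fun i μ s => κ (i, μ, s), ⟨?_, ?_⟩⟩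
  · intro i μ s j hj
    have h3 := (mem_powersetCard.1 (h1 (i, μ, s) (mem_univ _))).1 hj
    rw [mem_compl] at h3
    exact h3 (mem_image.2 ⟨j, mem_univ _, rfl⟩)
  · intro i μ s i' μ' s' hcard
    by_contra hcon
    have hne : (i, μ, s) ≠ (i', μ', s') := by
      intro he
      have e1 : i = i' := congrArg Prod.fst he
      have e2 : μ = μ' := congrArg (fun p => p.2.1) he
      have e3 : s = s' := congrArg (fun p => p.2.2) he
      exact hcon ⟨e1, e2, e3⟩
    refine h2 _ (mem_univ _) _ (mem_univ _) hne ⟨?_, hcard⟩
    have c1 := (mem_powersetCard.1 (h1 (i, μ, s) (mem_univ _))).2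
    have c2 := (mem_powersetCard.1 (h1 (i', μ', s') (mem_univ _))).2
    rw [card_sdiff_comm (c1.trans c2.symm)]
    exact hcard

end MP979
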