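import Pool.Agent.Lib.MP_979eef_lc.H.Haz
import Pool.Agent.Lib.MP_979eef_lc.K.SepOps

/-!
# Module Extract

Constants can be removed: every `φ : MF (Fin n × Bool)` is constant or there is `ψ : Fml (Fin n)` with
`ψ.dl.eval z = φ.eval z` for all `z` and `ψ.size ≤ φ.size` (induction, as `SepOps_fml` in
K/SepOps.lean). A total assignment `x` is the three-valued `fun i => some (x i)`, its only resolution
is `x`, and `rlo = rhi = (fun p => decide (x p.1 = p.2))` there; so `φ` is not constant and
`ψ.eval x = h x` (`Fml.eval_dl`). `ψ` is hazard-free by `Fml.kleene_lo`, `Fml.kleene_hi`.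
If `h` is monotone: `Sep φ.size h h` by `φ` with the variables `(i, false)` replaced by `const false`:
for `h a = true` apply `Computes` to the three-valued `a'` (`a' i = some true` if `a i`, otherwise
`none`; all resolutions are `≥ a`); if the new formula is true at `a` then `φ.eval` is true at
`fun p => decide (a p.1 = p.2)` (monotone), so `h a ≠ false`. Then `exists_fml_of_sep`
(K/SepOps) and `Fml.hazardFree_of_posOn`.
-/

set_option autoImplicit false

namespace MP979

private theorem Extract_fml {n : ℕ} (φ : MF (Fin n × Bool)) :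
    (∃ b : Bool, ∀ z, φ.eval z = b) ∨
      ∃ ψ : Fml (Fin n), (∀ z, ψ.dl.eval z = φ.eval z) ∧ ψ.size ≤ φ.size := by
  induction φ with
  | const b => exact Or.inl ⟨b, fun _ => rfl⟩
  | var p =>
    obtain ⟨i, b⟩ := p
    right
    refine ⟨Fml.lit i b, fun z => ?_, le_refl _⟩
    simp [Fml.dl, Fml.eval, MF.eval]
  | and p q hp hq =>
    rcases hp with ⟨b, hb⟩ | ⟨ψ, h2, h3⟩
    · cases b with
      | false =>
        left
        refine ⟨false, fun a => ?_⟩
        simp [MF.eval, hb a]
      | true =>
        rcases hq with ⟨c, hc⟩ | ⟨ψ', k2, k3⟩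
        · left
          refine ⟨c, fun a => ?_⟩
          simp [MF.eval, hb a, hc a]
        · right
          refine ⟨ψ', fun x => ?_, le_trans k3 (Nat.le_add_left _ _)⟩
          rw [k2 x]
          simp [MF.eval, hb x]
    · rcases hq with ⟨c, hc⟩ | ⟨ψ', k2, k3⟩
      · cases c with
        | false =>
          left
          refine ⟨false, fun a => ?_⟩
          simp [MF.eval, hc a]
        | true =>
          right
          refine ⟨ψ, fun x => ?_, le_trans h3 (Nat.le_add_right _ _)⟩
          rw [h2 x]
          simp [MF.eval, hc x]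
      · right
        refine ⟨Fml.and ψ ψ', fun x => ?_, Nat.add_le_add h3 k3⟩
        simp only [Fml.dl, Fml.eval, MF.eval, h2 x, k2 x]
  | or p q hp hq =>
    rcases hp with ⟨b, hb⟩ | ⟨ψ, h2, h3⟩
    · cases b with
      | true =>
        left
        refine ⟨true, fun a => ?_⟩
        simp [MF.eval, hb a]
      | false =>
        rcases hq with ⟨c, hc⟩ | ⟨ψ', k2, k3⟩
        · left
          refine ⟨c, fun a => ?_⟩
          simp [MF.eval, hb a, hc a]
        · right
          refine ⟨ψ', fun x => ?_, le_trans k3 (Nat.le_add_left _ _)⟩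
          rw [k2 x]
          simp [MF.eval, hb x]
    · rcases hq with ⟨c, hc⟩ | ⟨ψ', k2, k3⟩
      · cases c with
        | true =>
          left
          refine ⟨true, fun a => ?_⟩
          simp [MF.eval, hc a]
        | false =>
          right
          refine ⟨ψ, fun x => ?_, le_trans h3 (Nat.le_add_right _ _)⟩
          rw [h2 x]
          simp [MF.eval, hc x]
      · right
        refine ⟨Fml.or ψ ψ', fun x => ?_, Nat.add_le_add h3 k3⟩
        simp only [Fml.dl, Fml.eval, MF.eval, h2 x, k2 x]

private theorem Extract_total {n : ℕ} {φ : MF (Fin n × Bool)} {h : (Fin n → Bool) → Bool}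
    (hφ : Computes φ h) (x : Fin n → Bool) : φ.eval (fun p => decide (x p.1 = p.2)) = h x := by
  have hr : ∀ y : Fin n → Bool, Resolves (fun i => some (x i)) y → y = x := by
    intro y hy
    funext i
    exact hy i (x i) rfl
  have h1 : rlo (fun i => some (x i)) = fun p : Fin n × Bool => decide (x p.1 = p.2) := by
    funext p
    unfold rlo
    simp only [Option.some.injEq]
  have h2 : rhi (fun i => some (x i)) = fun p : Fin n × Bool => decide (x p.1 = p.2) := by
    funext p
    unfold rhi
    obtain ⟨i, c⟩ := p
    simp only [ne_eq, Option.some.injEq]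
    cases x i <;> cases c <;> rfl
  have h3 := hφ (fun i => some (x i))
  rw [h1, h2] at h3
  cases hx : h x with
  | true => exact h3.1 (fun y hy => by rw [hr y hy]; exact hx)
  | false => exact h3.2 (fun y hy => by rw [hr y hy]; exact hx)

private theorem Extract_mono {R : Type} (φ : MF R) (z z' : R → Bool)
    (h : ∀ p, z p = true → z' p = true) (hz : φ.eval z = true) : φ.eval z' = true := by
  induction φ with
  | const b => exact hz
  | var p => exact h p hz
  | and p q hp hq =>
    simp only [MF.eval, Bool.and_eq_true] at hz ⊢
    exact ⟨hp hz.1, hq hz.2⟩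
  | or p q hp hq =>
    simp only [MF.eval, Bool.or_eq_true] at hz ⊢
    exact hz.imp hp hq

/-- the negated variables replaced by `false` -/
private def Extract_pos {n : ℕ} : MF (Fin n × Bool) → MF (Fin n)
  | .const b => .const b
  | .var p => if p.2 = true then .var p.1 else .const false
  | .and p q => .and (Extract_pos p) (Extract_pos q)
  | .or p q => .or (Extract_pos p) (Extract_pos q)

private theorem Extract_pos_size {n : ℕ} (φ : MF (Fin n × Bool)) :
    (Extract_pos φ).size ≤ φ.size := by
  induction φ with
  | const b => exact le_refl _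
  | var p =>
    unfold Extract_pos
    by_cases hp : p.2 = true
    · rw [if_pos hp]
      exact le_refl _
    · rw [if_neg hp]
      exact Nat.zero_le _
  | and p q hp hq =>
    simp only [Extract_pos, MF.size]
    exact Nat.add_le_add hp hq
  | or p q hp hq =>
    simp only [Extract_pos, MF.size]
    exact Nat.add_le_add hp hq

private theorem Extract_pos_eval {n : ℕ} (φ : MF (Fin n × Bool)) (a : Fin n → Bool) :
    (Extract_pos φ).eval a = φ.eval (fun p => p.2 && a p.1) := by
  induction φ with
  | const b => rfl
  | var p =>
    unfold Extract_pos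
    by_cases hp : p.2 = true
    · rw [if_pos hp]
      simp only [MF.eval, hp, Bool.true_and]
    · rw [if_neg hp]
      have hp' : p.2 = false := Bool.eq_false_iff.2 hp
      simp only [MF.eval, hp', Bool.false_and]
  | and p q hp hq => simp only [Extract_pos, MF.eval, hp, hq]
  | or p q hp hq => simp only [Extract_pos, MF.eval, hp, hq]

private theorem Extract_monotone {n : ℕ} {φ : MF (Fin n × Bool)} {h : (Fin n → Bool) → Bool}
    (hm : Monotone h) (hφ : Computes φ h) : Sep φ.size h h := by
  refine ⟨Extract_pos φ, Extract_pos_size φ, fun a ha => ?_, fun a ha => ?_⟩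
  · rw [Extract_pos_eval]
    have h1 := (hφ (fun i => if a i = true then some true else none)).1 (by
      intro y hy
      have hle : a ≤ y := by
        intro i
        cases hai : a i with
        | false => exact Bool.false_le _
        | true =>
          have h2 := hy i true (by simp only [hai, if_true])
          rw [h2]
      have h3 := hm hle
      rw [ha] at h3
      exact Bool.eq_true_of_true_le h3)
    refine Extract_mono φ _ _ ?_ h1
    rintro ⟨i, c⟩ hp
    unfold rlo at hp
    rw [decide_eq_true_eq] at hp
    simp only at hp ⊢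
    by_cases hai : a i = true
    · rw [if_pos hai] at hp
      have hc : true = c := Option.some.inj hp
      rw [← hc, hai]
      rfl
    · rw [if_neg hai] at hp
      cases hp
  · rw [Extract_pos_eval] at ha
    rw [← Extract_total hφ a]
    refine Extract_mono φ _ _ ?_ ha
    rintro ⟨i, c⟩ hp
    simp only [Bool.and_eq_true] at hp
    rw [decide_eq_true_eq]
    simp only
    rw [hp.1, hp.2]

theorem exists_hazardFree {n : ℕ} (φ : MF (Fin n × Bool)) (h : (Fin n → Bool) → Bool)
    (hh : NonConst h) (hφ : Computes φ h) :
    ∃ ψ : Fml (Fin n), (∀ a, ψ.eval a = h a) ∧ ψ.HazardFree Set.univ ∧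
      (Monotone h → ψ.PosOn Set.univ) ∧ ψ.size ≤ φ.size := by
  by_cases hm : Monotone h
  · obtain ⟨ψ, h1, h2, h3⟩ := exists_fml_of_sep hh (Extract_monotone hm hφ)
    exact ⟨ψ, h2, Fml.hazardFree_of_posOn h1, fun _ => h1, h3⟩
  · rcases Extract_fml φ with ⟨b, hb⟩ | ⟨ψ, h1, h2⟩
    · exfalso
      obtain ⟨⟨x, hx⟩, ⟨y, hy⟩⟩ := hh
      rw [← Extract_total hφ x, hb] at hx
      rw [← Extract_total hφ y, hb, hx] at hy
      cases hy
    · have h3 : ∀ a, ψ.eval a = h a := by
        intro a
        rw [← Fml.eval_dl, h1, Extract_total hφ a]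
      refine ⟨ψ, h3, ?_, fun hm' => absurd hm' hm, h2⟩
      intro x c _ hc
      have hc' : ∀ y, Resolves x y → h y = c := fun y hy => by rw [← h3 y]; exact hc y hy
      cases c with
      | true =>
        rw [← Fml.kleene_lo, h1]
        exact (hφ x).1 hc'
      | false =>
        rw [← Fml.kleene_hi, h1]
        exact (hφ x).2 hc'

end MP979
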