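import Pool.Agent.Lib.MP_979eef_lc.H.InnerR

/-!
# Module InnerInjR

As K/InnerInj.lean. Let `μ = Fin.castLE hmn`, injective. `e i s` is the only `j` for which, for some
block `i0` and some input `X`, the value of `comp f (gfunR kap e)` changes when block `i0` is changed
from the indicator of `kap i μ s` to that of `insert (μ j) (kap i μ s)`: by `gfunR_cell` the values of
`gfunR kap e` there are `decide (μ (e i s) = μ j)`-like; so a change gives `j = e i s`. Conversely a
non-constant `f` is sensitive somewhere (`InnerInj_sens` in K/InnerInj.lean, private: copy it) and the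
other blocks can be given any values by the constant blocks (`gfunR_false`, `gfunR_true`).
-/

set_option autoImplicit false

namespace MP979

open Finset

/-- A non-constant function is sensitive somewhere. -/
private theorem InnerInjR_sens {n : ℕ} (f : (Fin n → Bool) → Bool) (hf : NonConst f) :
    ∃ (a : Fin n → Bool) (i : Fin n), f (Function.update a i true) ≠ f (Function.update a i false) := by
  by_contra hcon
  push Not at hcon
  have h1 : ∀ (a : Fin n → Bool) (i : Fin n) (b c : Bool),
      f (Function.update a i b) = f (Function.update a i c) := by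
    intro a i b c
    cases b <;> cases c
    · rfl
    · exact (hcon a i).symm
    · exact hcon a i
    · rfl
  obtain ⟨⟨x, hx⟩, ⟨y, hy⟩⟩ := hf
  have h2 : ∀ A : Finset (Fin n), f (A.piecewise x y) = f y := by
    intro A
    induction A using Finset.induction_on with
    | empty => rw [Finset.piecewise_empty]
    | insert i A hi ih =>
      rw [Finset.piecewise_insert]
      rw [h1 (A.piecewise x y) i (x i) (A.piecewise x y i), Function.update_eq_self, ih]
  have h3 := h2 univ
  rw [Finset.piecewise_univ, hx, hy] at h3
  exact Bool.noConfusion h3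

/-- The value of a composition at a test input. -/
private theorem InnerInjR_test {n m N : ℕ} {kap : Fin n → (Fin m → Fin n) → Fin N → Finset (Fin n)}
    (hk : Code kap) (hn : 0 < n) (hN : 0 < N) (e : Fin n → Fin N → Fin m)
    (f : (Fin n → Bool) → Bool) (i : Fin n) (s : Fin N) (μ : Fin m → Fin n)
    (hμ : ∀ j k, μ j = μ k → j = k) (a : Fin n → Bool) (i0 : Fin n) (S : Fin m → Bool) :
    comp f (gfunR kap e) (fun p => if p.1 = i0 then
      decide (p.2 ∈ kap i μ s ∨ ∃ j, μ j = p.2 ∧ S j = true) else a p.1) =
      f (Function.update a i0 (S (e i s))) := by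
  unfold comp
  congr 1
  funext p
  by_cases hp : p = i0
  · subst hp
    rw [Function.update_self]
    have h1 : (fun j => if p = p then decide (j ∈ kap i μ s ∨ ∃ l, μ l = j ∧ S l = true) else a p) =
        fun j => decide (j ∈ kap i μ s ∨ ∃ l, μ l = j ∧ S l = true) := by
      funext j
      rw [if_pos rfl]
    refine Eq.trans (congrArg (gfunR kap e) h1) ?_
    rw [gfunR_cell hk e i μ s _ (by
      intro k hk'
      have h2 : ¬ ∃ l, μ l = k ∧ S l = true := by
        rintro ⟨l, hl, _⟩
        exact hk' l hl
      rw [decide_eq_decide]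
      exact ⟨fun h => h.resolve_right h2, fun h => Or.inl h⟩)]
    cases hS : S (e i s) with
    | true =>
      rw [decide_eq_true_eq]
      exact Or.inr ⟨e i s, rfl, hS⟩
    | false =>
      rw [decide_eq_false_iff_not]
      rintro (h | ⟨l, hl, hl2⟩)
      · exact hk.avoid i μ s (e i s) h
      · rw [hμ l (e i s) hl, hS] at hl2
        exact Bool.false_ne_true hl2
  · rw [Function.update_of_ne hp]
    have h1 : (fun j => if p = i0 then decide (j ∈ kap i μ s ∨ ∃ l, μ l = j ∧ S l = true) else a p) =
        fun _ => a p := by
      funext j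
      rw [if_neg hp]
    refine Eq.trans (congrArg (gfunR kap e) h1) ?_
    cases hap : a p with
    | true => exact gfunR_true hn hN e
    | false => exact gfunR_false e

theorem gfunR_inj {n m N : ℕ} {kap : Fin n → (Fin m → Fin n) → Fin N → Finset (Fin n)}
    (hk : Code kap) (hmn : m ≤ n) (hn : 0 < n) (hN : 0 < N) (e e' : Fin n → Fin N → Fin m)
    (f f' : (Fin n → Bool) → Bool) (hf : NonConst f) (hf' : NonConst f')
    (h : comp f (gfunR kap e) = comp f' (gfunR kap e')) : e = e' := by
  obtain ⟨a, i0, hsens⟩ := InnerInjR_sens f hf
  funext i s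
  by_contra hne
  refine hsens ?_
  have hμ : ∀ j k : Fin m, Fin.castLE hmn j = Fin.castLE hmn k → j = k := by
    intro j k hjk
    exact Fin.castLE_injective hmn hjk
  have h1 := InnerInjR_test hk hn hN e f i s (Fin.castLE hmn) hμ a i0 (fun j => decide (j = e i s))
  have h2 := InnerInjR_test hk hn hN e f i s (Fin.castLE hmn) hμ a i0 (fun _ => false)
  have h3 := InnerInjR_test hk hn hN e' f' i s (Fin.castLE hmn) hμ a i0 (fun j => decide (j = e i s))
  have h4 := InnerInjR_test hk hn hN e' f' i s (Fin.castLE hmn) hμ a i0 (fun _ => false)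
  rw [← h] at h3 h4
  have h5 : decide (e i s = e i s) = true := decide_eq_true rfl
  have h6 : decide (e' i s = e i s) = false := decide_eq_false (fun h => hne h.symm)
  rw [h5] at h1
  rw [h6] at h3
  rw [← h1, ← h2, h3, h4]

end MP979
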