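import Pool.Agent.Lib.MP_979eef_lc.H.Defs

/-!
# Module NotHardR

As K/NotHard.lean, with rows `Fin n × Bool` (copy `NotHard_and`, `exists_dnf` for any type of rows
with decidable equality). `sepR_of_not_hard`: the DNF of the family of all `P` with
`P ⊆ A ×ˢ univ` for some `A` with `A.card ≤ t`, and `H (highR v 1_P) = true`: terms of size at most
`2 * t`, number of terms at most `∑ A, 2 ^ (2 * A.card) ≤ nsub n t * 4 ^ t`. If the DNF is true at `z`
then `1_P ≤ z`, so `H (highR v z) = true`. If `H (lowR v z) = true`: not hard at `z` gives `A` with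
`A.card ≤ t` and `H (lowR v (z on A, true off A)) = false` (impossible by monotonicity) or
`H (highR v (z on A, false off A)) = true`; this vector is `1_P`, `P = {p | p.1 ∈ A ∧ z p = true}`.
`sepR_trivial`: DNF of all `P` with `H (lowR v 1_P) = true`; `lowR v z ≤ highR v z`;
`2 ^ (2 * n) = 4 ^ n` terms of size at most `2 * n`.
-/

set_option autoImplicit false

namespace MP979

open Finset

private theorem NotHardR_and {R : Type} [DecidableEq R] (A : Finset R) :
    ∃ φ : MF R, φ.size ≤ A.card ∧ ∀ a : R → Bool, φ.eval a = true ↔ ∀ i ∈ A, a i = true := by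
  induction A using Finset.induction_on with
  | empty => exact ⟨MF.const true, le_refl _, fun a => by simp [MF.eval]⟩
  | insert i A hi ih =>
    obtain ⟨φ, h1, h2⟩ := ih
    refine ⟨MF.and (MF.var i) φ, ?_, fun a => ?_⟩
    · rw [card_insert_of_notMem hi]
      simp only [MF.size]
      omega
    · simp only [MF.eval, Bool.and_eq_true, h2 a, mem_insert, forall_eq_or_imp]

private theorem NotHardR_dnf {R : Type} [DecidableEq R] (t : ℕ) (P : Finset (Finset R))
    (hP : ∀ A ∈ P, A.card ≤ t) :
    ∃ φ : MF R, φ.size ≤ t * P.card ∧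
      ∀ a : R → Bool, φ.eval a = true ↔ ∃ A ∈ P, ∀ i ∈ A, a i = true := by
  classical
  induction P using Finset.induction_on with
  | empty => exact ⟨MF.const false, le_refl _, fun a => by simp [MF.eval]⟩
  | insert A P hA ih =>
    obtain ⟨φ, h1, h2⟩ := ih (fun B hB => hP B (mem_insert_of_mem hB))
    obtain ⟨ψ, k1, k2⟩ := NotHardR_and A
    have hAt := hP A (mem_insert_self _ _)
    refine ⟨MF.or ψ φ, ?_, fun a => ?_⟩
    · rw [card_insert_of_notMem hA, mul_add, mul_one]
      simp only [MF.size]
      omega
    · simp only [MF.eval, Bool.or_eq_true, h2 a, k2 a, mem_insert, exists_eq_or_imp]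

private theorem NotHardR_low {n m : ℕ} (v : Fin n → Fin m) (z z' : Fin n × Bool → Bool)
    (h : ∀ p, z p = true → z' p = true) (p : Fin n × Bool) (j : Fin m)
    (hl : lowR v z p j = true) : lowR v z' p j = true := by
  simp only [lowR, Bool.and_eq_true] at hl ⊢
  exact ⟨h p hl.1, hl.2⟩

private theorem NotHardR_high {n m : ℕ} (v : Fin n → Fin m) (z z' : Fin n × Bool → Bool)
    (h : ∀ p, z p = true → z' p = true) (p : Fin n × Bool) (j : Fin m)
    (hl : highR v z p j = true) : highR v z' p j = true := by
  simp only [highR, Bool.or_eq_true] at hl ⊢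
  exact hl.imp (h p) id

theorem sepR_of_not_hard {n m t : ℕ} (H : (Fin n × Bool → Fin m → Bool) → Bool) (hH : MonoTabR H)
    (v : Fin n → Fin m) (hv : ¬ HardR t H v) :
    Sep (2 * t * (4 ^ t * nsub n t)) (fun z => H (lowR v z)) (fun z => H (highR v z)) := by
  classical
  set Fam : Finset (Finset (Fin n × Bool)) :=
    ((univ.filter (fun A : Finset (Fin n) => A.card ≤ t)).biUnion
      (fun A => (A ×ˢ (univ : Finset Bool)).powerset)).filter
        (fun P => H (highR v (fun p => decide (p ∈ P))) = true) with hFam
  have hmem : ∀ P, P ∈ Fam ↔ (∃ A : Finset (Fin n), A.card ≤ t ∧ P ⊆ A ×ˢ (univ : Finset Bool)) ∧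
      H (highR v (fun p => decide (p ∈ P))) = true := by
    intro P
    rw [hFam, mem_filter, mem_biUnion]
    simp only [mem_filter, mem_univ, true_and, mem_powerset]
  have hcard : Fam.card ≤ 4 ^ t * nsub n t := by
    refine le_trans (card_filter_le _ _) (le_trans card_biUnion_le ?_)
    calc ∑ A ∈ univ.filter (fun A : Finset (Fin n) => A.card ≤ t),
          ((A ×ˢ (univ : Finset Bool)).powerset).card
        ≤ ∑ A ∈ univ.filter (fun A : Finset (Fin n) => A.card ≤ t), 4 ^ t := by
          refine sum_le_sum (fun A hA => ?_)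
          rw [card_powerset, card_product, card_univ, Fintype.card_bool, mul_comm, pow_mul]
          exact Nat.pow_le_pow_right (by norm_num) (mem_filter.1 hA).2
      _ = 4 ^ t * nsub n t := by
          rw [sum_const, smul_eq_mul, mul_comm]
          rfl
  obtain ⟨φ, h1, h2⟩ := NotHardR_dnf (2 * t) Fam (by
    intro P hP
    obtain ⟨⟨A, hA, hPA⟩, _⟩ := (hmem P).1 hP
    have h3 := card_le_card hPA
    rw [card_product, card_univ, Fintype.card_bool] at h3
    omega)
  refine ⟨φ, le_trans h1 (Nat.mul_le_mul_left _ hcard), ?_, ?_⟩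
  · intro z hz
    rw [h2 z]
    have h' := hv
    unfold HardR at h'
    push Not at h'
    obtain ⟨A, hA, hA2⟩ := h' z
    have e1 : H (lowR v (fun p => if p.1 ∈ A then z p else true)) = true := by
      refine hH _ _ (fun p j => NotHardR_low v z _ (fun p hp => ?_) p j) hz
      by_cases hiA : p.1 ∈ A
      · rw [if_pos hiA]; exact hp
      · rw [if_neg hiA]
    have e2 : H (highR v (fun p => if p.1 ∈ A then z p else false)) = true := by
      have := hA2 e1
      simpa using this
    refine ⟨univ.filter (fun p => p.1 ∈ A ∧ z p = true), (hmem _).2 ⟨⟨A, hA, ?_⟩, ?_⟩,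
      fun p hp => (mem_filter.1 hp).2.2⟩
    · intro p hp
      rw [mem_product]
      exact ⟨(mem_filter.1 hp).2.1, mem_univ _⟩
    · have e3 : (fun p => decide (p ∈ univ.filter (fun p : Fin n × Bool => p.1 ∈ A ∧ z p = true))) =
          fun p => if p.1 ∈ A then z p else false := by
        funext p
        by_cases hiA : p.1 ∈ A
        · rw [if_pos hiA]
          cases hai : z p with
          | true => simp [hiA, hai]
          | false => simp [hai]
        · rw [if_neg hiA]
          simp [hiA]
      rw [e3]
      exact e2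
  · intro z hz
    obtain ⟨P, hP, hPz⟩ := (h2 z).1 hz
    refine hH _ _ (fun p j => NotHardR_high v _ z (fun p hp => ?_) p j) ((hmem P).1 hP).2
    exact hPz p (of_decide_eq_true hp)

theorem sepR_trivial {n m : ℕ} (H : (Fin n × Bool → Fin m → Bool) → Bool) (hH : MonoTabR H)
    (v : Fin n → Fin m) :
    Sep (2 * n * 4 ^ n) (fun z => H (lowR v z)) (fun z => H (highR v z)) := by
  classical
  have hu : Fintype.card (Fin n × Bool) = 2 * n := by
    rw [Fintype.card_prod, Fintype.card_fin, Fintype.card_bool, mul_comm]
  obtain ⟨φ, h1, h2⟩ := NotHardR_dnf (2 * n)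
    (univ.filter (fun P : Finset (Fin n × Bool) =>
      H (lowR v (fun p => decide (p ∈ P))) = true))
    (fun P _ => by
      have := card_le_univ P
      rwa [hu] at this)
  refine ⟨φ, le_trans h1 (Nat.mul_le_mul_left _ ?_), ?_, ?_⟩
  · refine le_trans (card_filter_le _ _) (le_of_eq ?_)
    rw [card_univ, Fintype.card_finset, hu, pow_mul]
    norm_num
  · intro z hz
    rw [h2 z]
    refine ⟨univ.filter (fun p => z p = true), mem_filter.2 ⟨mem_univ _, ?_⟩,
      fun p hp => (mem_filter.1 hp).2⟩
    have e3 : (fun p => decide (p ∈ univ.filter (fun p : Fin n × Bool => z p = true))) = z := by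
      funext p
      cases hz : z p with
      | true => simp [hz]
      | false => simp [hz]
    rw [e3]
    exact hz
  · intro z hz
    obtain ⟨P, hP, hPz⟩ := (h2 z).1 hz
    refine hH _ _ (fun p j hl => ?_) (mem_filter.1 hP).2
    simp only [lowR, Bool.and_eq_true] at hl
    simp only [highR, Bool.or_eq_true]
    exact Or.inl (hPz p (of_decide_eq_true hl.1))

end MP979
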