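import Pool.Agent.Lib.MP_979eef_lc.K.SepOps
import Pool.Agent.Lib.MP_979eef_lc.H.NotHardR

/-!
# Module PieceR

Closure of `CostR` under weakening, `and`, `or` (as K/CostOps.lean: `Sep.and`, `Sep.or`,
`Finset.sum_add_distrib`). `monoTabR_lits`: `lits` is monotone in the table. `costR_piece` (as
K/Piece.lean): `s σ = 2 * n * 4 ^ n` if hard (`sepR_trivial`), `2 * t * (4 ^ t * nsub n t)` otherwise
(`sepR_of_not_hard`).
-/

set_option autoImplicit false

namespace MP979

open Finset

variable {n m N : ℕ} {kap : Fin n → (Fin m → Fin n) → Fin N → Finset (Fin n)}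
  {e : Fin n → Fin N → Fin m} {C : Fin n → Option Bool} {M : Fin n → Fin m → Fin n}

theorem CostR.mono {h : ((Fin n × Fin n) × Bool → Bool) → Bool} {c c' : ℕ}
    (hc : CostR kap e C M h c) (hcc : c ≤ c') : CostR kap e C M h c' := by
  obtain ⟨s, h1, h2⟩ := hc
  exact ⟨s, h1, le_trans h2 hcc⟩

theorem CostR.and {h h' : ((Fin n × Fin n) × Bool → Bool) → Bool} {c c' : ℕ}
    (hc : CostR kap e C M h c) (hc' : CostR kap e C M h' c') :
    CostR kap e C M (fun x => h x && h' x) (c + c') := by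
  obtain ⟨s, h1, h2⟩ := hc
  obtain ⟨s', h1', h2'⟩ := hc'
  refine ⟨fun σ => s σ + s' σ, fun σ => Sep.and (h1 σ) (h1' σ), ?_⟩
  rw [Finset.sum_add_distrib]
  exact Nat.add_le_add h2 h2'

theorem CostR.or {h h' : ((Fin n × Fin n) × Bool → Bool) → Bool} {c c' : ℕ}
    (hc : CostR kap e C M h c) (hc' : CostR kap e C M h' c') :
    CostR kap e C M (fun x => h x || h' x) (c + c') := by
  obtain ⟨s, h1, h2⟩ := hc
  obtain ⟨s', h1', h2'⟩ := hc'
  refine ⟨fun σ => s σ + s' σ, fun σ => Sep.or (h1 σ) (h1' σ), ?_⟩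
  rw [Finset.sum_add_distrib]
  exact Nat.add_le_add h2 h2'

theorem monoTabR_lits {h : ((Fin n × Fin n) × Bool → Bool) → Bool} (hh : MonoIn Set.univ h)
    (C : Fin n → Option Bool) (M : Fin n → Fin m → Fin n) (σ : Fin n → Fin N) :
    MonoTabR (fun T => h (lits kap C M σ T)) := by
  intro S T hST hS
  refine hh (lits kap C M σ S) (lits kap C M σ T) (fun i hi => absurd (Set.mem_univ i) hi) ?_ hS
  rintro ⟨⟨i, k⟩, c⟩ _ hp
  unfold lits at hp ⊢
  simp only at hp ⊢
  cases hC : C i with
  | none =>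
    rw [hC] at hp
    simp only at hp ⊢
    rw [decide_eq_true_eq] at hp ⊢
    rcases hp with ⟨j, hj1, hj2⟩ | hp
    · exact Or.inl ⟨j, hj1, hST _ _ hj2⟩
    · exact Or.inr hp
  | some b =>
    rw [hC] at hp
    exact hp

open Classical in
theorem costR_piece {t : ℕ} {h : ((Fin n × Fin n) × Bool → Bool) → Bool}
    (hh : MonoIn Set.univ h)
    (hz : (univ.filter (fun σ : Fin n → Fin N =>
        HardR t (fun T => h (lits kap C M σ T)) (pick e σ))).card * 4 ^ n ≤ N ^ n) :
    CostR kap e C M h (N ^ n * (2 * t * (4 ^ t * nsub n t) + 2 * n)) := by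
  refine ⟨fun σ => if HardR t (fun T => h (lits kap C M σ T)) (pick e σ) then 2 * n * 4 ^ n else
    2 * t * (4 ^ t * nsub n t), fun σ => ?_, ?_⟩
  · have hm : MonoTabR (fun T => h (lits kap C M σ T)) := monoTabR_lits hh C M σ
    by_cases hH : HardR t (fun T => h (lits kap C M σ T)) (pick e σ)
    · simp only [if_pos hH]
      exact sepR_trivial _ hm _
    · simp only [if_neg hH]
      exact sepR_of_not_hard _ hm _ hH
  · rw [sum_ite, sum_const, sum_const, smul_eq_mul, smul_eq_mul]
    set Z := (univ.filter (fun σ : Fin n → Fin N =>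
        HardR t (fun T => h (lits kap C M σ T)) (pick e σ))).card with hZ
    have h1 : (univ.filter (fun σ : Fin n → Fin N =>
        ¬ HardR t (fun T => h (lits kap C M σ T)) (pick e σ))).card ≤ N ^ n := by
      refine le_trans (card_filter_le _ _) ?_
      rw [card_univ, Fintype.card_fun, Fintype.card_fin, Fintype.card_fin]
    have h2 := Nat.mul_le_mul_right (2 * t * (4 ^ t * nsub n t)) h1
    have h3 := Nat.mul_le_mul_left (2 * n) hz
    rw [mul_add]
    have e1 : 2 * n * (Z * 4 ^ n) = Z * (2 * n * 4 ^ n) := by ring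
    rw [e1] at h3
    have e2 : 2 * n * N ^ n = N ^ n * (2 * n) := mul_comm _ _
    omega

end MP979
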