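import Pool.Agent.Lib.MP_979eef_lc.H.Defs
import Pool.Agent.Lib.MP_979eef_lc.K.Pieces

/-!
# Module Haz

Inductions over the formula. `kleene_lo`, `kleene_hi`: `F.dl` at `rlo x` is true iff the Kleene value
is `some true`, at `rhi x` it is false iff the Kleene value is `some false` (tables of `kand`, `kor`;
prove both together, or each alone: AND is `some true` iff both are, `some false` iff one is).
`hazardFree_of_posOn`: let the unstable variables of `x` lie in `U` and `F.eval y = c` at all
resolutions. Let `y1` be the resolution with all unstable variables `1`, `y0` with `0`. For a formula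
positive on `U`: `F.dl.eval (rhi x) = F.eval y1` and `F.dl.eval (rlo x) = F.eval y0` (induction; for a
literal of a stable variable both sides are `x i = some b`, for an unstable variable `b = true`).
So `c = true` gives `kleene = some true`, `c = false` gives `some false`.
-/

set_option autoImplicit false

namespace MP979

theorem Fml.size_dl {ι : Type} (F : Fml ι) : F.dl.size = F.size := by
  induction F with
  | lit i b => rfl
  | and p q hp hq => simp only [Fml.dl, Fml.size, hp, hq]
  | or p q hp hq => simp only [Fml.dl, Fml.size, hp, hq]

theorem Fml.posOn_dl {ι : Type} (F : Fml ι) (D : Set (ι × Bool)) : F.dl.PosOn D := by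
  induction F with
  | lit i b => exact fun _ => rfl
  | and p q hp hq => exact ⟨hp, hq⟩
  | or p q hp hq => exact ⟨hp, hq⟩

private theorem Haz_lit (c b : Bool) : (decide (c = b) == true) = (c == b) := by
  revert c b; decide

theorem Fml.eval_dl {ι : Type} (F : Fml ι) (x : ι → Bool) :
    F.dl.eval (fun p => decide (x p.1 = p.2)) = F.eval x := by
  induction F with
  | lit i b => exact Haz_lit (x i) b
  | and p q hp hq => simp only [Fml.dl, Fml.eval, hp, hq]
  | or p q hp hq => simp only [Fml.dl, Fml.eval, hp, hq]

theorem Fml.dl_mono {ι : Type} (F : Fml ι) (z z' : ι × Bool → Bool) (h : ∀ p, z p = true → z' p = true)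
    (hz : F.dl.eval z = true) : F.dl.eval z' = true := by
  induction F with
  | lit i b =>
    simp only [Fml.dl, Fml.eval, beq_iff_eq] at hz ⊢
    exact h _ hz
  | and p q hp hq =>
    simp only [Fml.dl, Fml.eval, Bool.and_eq_true] at hz ⊢
    exact ⟨hp hz.1, hq hz.2⟩
  | or p q hp hq =>
    simp only [Fml.dl, Fml.eval, Bool.or_eq_true] at hz ⊢
    exact hz.imp hp hq

private theorem Haz_and_true (p q : Option Bool) :
    kand p q = some true ↔ p = some true ∧ q = some true := by
  revert p q; decide

private theorem Haz_and_false (p q : Option Bool) :
    kand p q = some false ↔ p = some false ∨ q = some false := by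
  revert p q; decide

private theorem Haz_or_true (p q : Option Bool) :
    kor p q = some true ↔ p = some true ∨ q = some true := by
  revert p q; decide

private theorem Haz_or_false (p q : Option Bool) :
    kor p q = some false ↔ p = some false ∧ q = some false := by
  revert p q; decide

private theorem Haz_lit_true (o : Option Bool) (b : Bool) :
    (decide (o = some b) == true) = true ↔ o.map (fun c => c == b) = some true := by
  revert o b; decide

private theorem Haz_lit_false (o : Option Bool) (b : Bool) :
    (decide (o ≠ some (!b)) == true) = false ↔ o.map (fun c => c == b) = some false := by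
  revert o b; decide

theorem Fml.kleene_lo {ι : Type} (F : Fml ι) (x : ι → Option Bool) :
    F.dl.eval (rlo x) = true ↔ F.kleene x = some true := by
  induction F with
  | lit i b => exact Haz_lit_true (x i) b
  | and p q hp hq =>
    simp only [Fml.kleene, Fml.dl, Fml.eval, Haz_and_true, Bool.and_eq_true, hp, hq]
  | or p q hp hq =>
    simp only [Fml.kleene, Fml.dl, Fml.eval, Haz_or_true, Bool.or_eq_true, hp, hq]

theorem Fml.kleene_hi {ι : Type} (F : Fml ι) (x : ι → Option Bool) :
    F.dl.eval (rhi x) = false ↔ F.kleene x = some false := by
  induction F with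
  | lit i b => exact Haz_lit_false (x i) b
  | and p q hp hq =>
    simp only [Fml.kleene, Fml.dl, Fml.eval, Haz_and_false, Bool.and_eq_false_iff, hp, hq]
  | or p q hp hq =>
    simp only [Fml.kleene, Fml.dl, Fml.eval, Haz_or_false, Bool.or_eq_false_iff, hp, hq]

private theorem Haz_low {ι : Type} {U : Set ι} {F : Fml ι} (h : F.PosOn U)
    (x : ι → Option Bool) (hx : ∀ p, x p = none → p ∈ U) :
    F.eval (fun p => (x p).getD false) = F.dl.eval (rlo x) := by
  induction F with
  | lit i b =>
    have h' : i ∈ U → b = true := h
    have hi := hx i
    simp only [Fml.eval, Fml.dl, rlo]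
    cases hxi : x i with
    | none =>
      rw [h' (hi hxi)]
      rfl
    | some c => cases b <;> cases c <;> rfl
  | and p q hp hq => simp only [Fml.eval, Fml.dl, hp h.1, hq h.2]
  | or p q hp hq => simp only [Fml.eval, Fml.dl, hp h.1, hq h.2]

private theorem Haz_high {ι : Type} {U : Set ι} {F : Fml ι} (h : F.PosOn U)
    (x : ι → Option Bool) (hx : ∀ p, x p = none → p ∈ U) :
    F.eval (fun p => (x p).getD true) = F.dl.eval (rhi x) := by
  induction F with
  | lit i b =>
    have h' : i ∈ U → b = true := h
    have hi := hx i
    simp only [Fml.eval, Fml.dl, rhi]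
    cases hxi : x i with
    | none =>
      rw [h' (hi hxi)]
      rfl
    | some c => cases b <;> cases c <;> rfl
  | and p q hp hq => simp only [Fml.eval, Fml.dl, hp h.1, hq h.2]
  | or p q hp hq => simp only [Fml.eval, Fml.dl, hp h.1, hq h.2]

/-- Un-negated variables have no hazards. -/
theorem Fml.hazardFree_of_posOn {ι : Type} {U : Set ι} {F : Fml ι} (h : F.PosOn U) :
    F.HazardFree U := by
  intro x c hx hc
  cases c with
  | true =>
    rw [← Fml.kleene_lo, ← Haz_low h x hx]
    refine hc _ ?_
    intro p b hp
    simp only [hp, Option.getD_some]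
  | false =>
    rw [← Fml.kleene_hi, ← Haz_high h x hx]
    refine hc _ ?_
    intro p b hp
    simp only [hp, Option.getD_some]

end MP979
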