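import Pool.Agent.Lib.MP_979eef_lc.H.InnerR
import Pool.Agent.Lib.MP_979eef_lc.H.Haz

/-!
# Module RailsR

Let `v = pick e σ`, `a : Fin n → Option Bool`, and let `h y = f (fun i => (C i).getD (y i))` have the
value `c` at all resolutions `y` of `a`. Three-valued input `X` of `F`: `X (i, k) = some b` if
`C i = some b`; if `C i = none`: `some (decide (k ∈ kap i (M i) (σ i)))` if `k` is not in the range of
`M i`; `a i` if `k = M i (v i)`; `none` otherwise. Unstable variables are of the form `(i, M i j)` with
`C i = none`, so in `U`. Every resolution `Y` of `X` satisfies `comp_cell`, and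
`comp f (gfunR kap e) Y = h (fun i => Y (i, M i (v i)))`, where `fun i => Y (i, M i (v i))` may be
replaced by a resolution of `a` (blocks with `C i = some b` do not matter: use
`y i = if C i = none then Y (i, M i (v i)) else (a i).getD false`). So `F.kleene X = some c`.
If `c = true`: `F.dl.eval (rlo X) = true` (`Fml.kleene_lo`) and `rlo X ≤ lits kap C M σ (lowR v (rlo a))`
pointwise, so `F.dl` is true there (`Fml.dl_mono`) and `φ.eval (rlo a) = true` by `h1`.
If `c = false`: `F.dl.eval (rhi X) = false` and `lits kap C M σ (highR v (rhi a)) ≤ rhi X` pointwise (for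
`k = M i j`, `j ≠ v i` the variable is unstable by injectivity of `M i`), so `F.dl` is false at
`lits .. (highR v (rhi a))`, and `φ.eval (rhi a) = true` would contradict `h2`.
-/

set_option autoImplicit false

namespace MP979

open Finset

/-- the three-valued input of `F` -/
private noncomputable def RailsR_inp {n m N : ℕ} (kap : Fin n → (Fin m → Fin n) → Fin N → Finset (Fin n))
    (C : Fin n → Option Bool) (M : Fin n → Fin m → Fin n) (σ : Fin n → Fin N) (v : Fin n → Fin m)
    (a : Fin n → Option Bool) (p : Fin n × Fin n) : Option Bool :=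
  open Classical in
  if C p.1 = none then
    (if ∀ j, M p.1 j ≠ p.2 then some (decide (p.2 ∈ kap p.1 (M p.1) (σ p.1))) else
      if p.2 = M p.1 (v p.1) then a p.1 else none)
  else C p.1

private theorem RailsR_lo {n m N : ℕ} {kap : Fin n → (Fin m → Fin n) → Fin N → Finset (Fin n)}
    (C : Fin n → Option Bool) (M : Fin n → Fin m → Fin n) (σ : Fin n → Fin N) (v : Fin n → Fin m)
    (a : Fin n → Option Bool) (p : (Fin n × Fin n) × Bool)
    (hp : rlo (RailsR_inp kap C M σ v a) p = true) : lits kap C M σ (lowR v (rlo a)) p = true := by
  obtain ⟨⟨i, k⟩, c⟩ := p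
  unfold rlo RailsR_inp at hp
  rw [decide_eq_true_eq] at hp
  unfold lits
  simp only at hp ⊢
  rcases hC : C i with _ | b
  · rw [hC] at hp
    simp only [if_true] at hp
    simp only
    rw [decide_eq_true_eq]
    by_cases h1 : ∀ j, M i j ≠ k
    · rw [if_pos h1] at hp
      right
      exact ⟨h1, Option.some.inj hp⟩
    · rw [if_neg h1] at hp
      by_cases h2 : k = M i (v i)
      · rw [if_pos h2] at hp
        left
        refine ⟨v i, h2.symm, ?_⟩
        unfold lowR rlo
        simp only [hp, decide_true, Bool.and_true]
      · rw [if_neg h2] at hp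
        cases hp
  · rw [hC] at hp
    have hb : (some b : Option Bool) ≠ none := by simp
    rw [if_neg hb] at hp
    simp only
    rw [decide_eq_true_eq]
    exact Option.some.inj hp

private theorem RailsR_hi {n m N : ℕ} {kap : Fin n → (Fin m → Fin n) → Fin N → Finset (Fin n)}
    (C : Fin n → Option Bool) (M : Fin n → Fin m → Fin n) (σ : Fin n → Fin N) (v : Fin n → Fin m)
    (a : Fin n → Option Bool) (hM : ∀ i, C i = none → Function.Injective (M i))
    (p : (Fin n × Fin n) × Bool)
    (hp : lits kap C M σ (highR v (rhi a)) p = true) : rhi (RailsR_inp kap C M σ v a) p = true := by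
  obtain ⟨⟨i, k⟩, c⟩ := p
  unfold rhi RailsR_inp
  rw [decide_eq_true_eq]
  unfold lits at hp
  simp only at hp ⊢
  rcases hC : C i with _ | b
  · rw [hC] at hp
    simp only at hp
    rw [decide_eq_true_eq] at hp
    simp only [if_true]
    rcases hp with ⟨j, hj1, hj2⟩ | ⟨h1, h2⟩
    · have h1 : ¬ ∀ j, M i j ≠ k := fun h => h j hj1
      rw [if_neg h1]
      by_cases h2 : k = M i (v i)
      · rw [if_pos h2]
        have h3 : j = v i := hM i hC (hj1.trans h2)
        unfold highR rhi at hj2
        simp only at hj2
        rw [Bool.or_eq_true, decide_eq_true_eq, decide_eq_true_eq] at hj2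
        rcases hj2 with h4 | h4
        · exact h4
        · exact absurd h3 h4
      · rw [if_neg h2]
        simp
    · rw [if_pos h1, h2]
      cases c <;> simp
  · rw [hC] at hp
    simp only at hp
    rw [decide_eq_true_eq] at hp
    have hb : (some b : Option Bool) ≠ none := by simp
    rw [if_neg hb, hp]
    cases c <;> simp

theorem computes_of_sep {n m N : ℕ} {kap : Fin n → (Fin m → Fin n) → Fin N → Finset (Fin n)}
    (hk : Code kap) (hn : 0 < n) (hN : 0 < N) (e : Fin n → Fin N → Fin m)
    (C : Fin n → Option Bool) (M : Fin n → Fin m → Fin n) (σ : Fin n → Fin N)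
    (f : (Fin n → Bool) → Bool) (F : Fml (Fin n × Fin n)) (U : Set (Fin n × Fin n))
    (hF : ∀ x, F.eval x = comp f (gfunR kap e) x) (hU : F.HazardFree U)
    (hM : ∀ i, C i = none → Function.Injective (M i) ∧ ∀ j, (i, M i j) ∈ U)
    (φ : MF (Fin n × Bool))
    (h1 : ∀ z, F.dl.eval (lits kap C M σ (lowR (pick e σ) z)) = true → φ.eval z = true)
    (h2 : ∀ z, φ.eval z = true → F.dl.eval (lits kap C M σ (highR (pick e σ) z)) = true) :
    Computes φ (fun y => f (fun i => (C i).getD (y i))) := by
  classical
  intro a
  set v := pick e σ with hv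
  set X := RailsR_inp kap C M σ v a with hX
  have key : ∀ c : Bool, (∀ y, Resolves a y → f (fun i => (C i).getD (y i)) = c) →
      F.kleene X = some c := by
    intro c hc
    refine hU X c ?_ ?_
    · rintro ⟨i, k⟩ hik
      rw [hX] at hik
      unfold RailsR_inp at hik
      simp only at hik
      by_cases hC : C i = none
      · rw [if_pos hC] at hik
        by_cases h3 : ∀ j, M i j ≠ k
        · rw [if_pos h3] at hik
          cases hik
        · push Not at h3
          obtain ⟨j, rfl⟩ := h3
          exact (hM i hC).2 j
      · rw [if_neg hC] at hik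
        exact absurd hik hC
    · intro Y hY
      have hy1 : ∀ i b, C i = some b → ∀ k, Y (i, k) = b := by
        intro i b hb k
        refine hY (i, k) b ?_
        rw [hX]
        unfold RailsR_inp
        simp only
        rw [if_neg (by rw [hb]; simp), hb]
      have hy2 : ∀ i, C i = none → ∀ k, (∀ j, M i j ≠ k) →
          Y (i, k) = decide (k ∈ kap i (M i) (σ i)) := by
        intro i hC k hk'
        refine hY (i, k) _ ?_
        rw [hX]
        unfold RailsR_inp
        simp only
        rw [if_pos hC, if_pos hk']
      rw [hF, comp_cell hk hn hN e C M σ f Y hy1 hy2]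
      have h3 := hc (fun i => if C i = none then Y (i, M i (v i)) else (a i).getD false) (by
        intro i b hab
        by_cases hC : C i = none
        · simp only [if_pos hC]
          refine hY (i, M i (v i)) b ?_
          rw [hX]
          unfold RailsR_inp
          simp only
          rw [if_pos hC, if_neg (fun h => h (v i) rfl), if_pos trivial]
          exact hab
        · simp only [if_neg hC, hab, Option.getD_some])
      rw [← h3]
      congr 1
      funext i
      rcases hC : C i with _ | b
      · simp only [Option.getD_none, if_true]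
        rfl
      · simp only [Option.getD_some]
  refine ⟨fun ha => ?_, fun ha => ?_⟩
  · have h3 := (Fml.kleene_lo F X).2 (key true ha)
    exact h1 _ (Fml.dl_mono F _ _ (fun p hp => RailsR_lo C M σ v a p hp) h3)
  · have h3 := (Fml.kleene_hi F X).2 (key false ha)
    cases h4 : φ.eval (rhi a) with
    | false => rfl
    | true =>
      have h5 := h2 _ h4
      have h6 := Fml.dl_mono F _ _ (fun p hp => RailsR_hi C M σ v a (fun i hi => (hM i hi).1) p hp) h5
      rw [h3] at h6
      cases h6

end MP979
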