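import Pool.Agent.Lib.MP_979eef_lc.H.SelectR
import Pool.Agent.Lib.MP_979eef_lc.H.PieceR
import Pool.Agent.Lib.MP_979eef_lc.H.CodeR
import Pool.Agent.Lib.MP_979eef_lc.H.InnerInjR
import Pool.Agent.Lib.MP_979eef_lc.H.RailsR
import Pool.Agent.Lib.MP_979eef_lc.H.Extract

/-!
# Module ComposeR

Pieces of `F.dl` from `exists_pieces`, `e` from `selectR`, `decomp` with `B = CostR kap e C M`,
then `computes_of_sep` and `exists_hazardFree` for the sample of least cost.
-/

set_option autoImplicit false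

namespace MP979

open Finset

private theorem ComposeR_pos {n m : ℕ} {U : Set (Fin n × Fin n)} {i : Fin n}
    (hi : i ∈ blocksOf m U) : ∃ μ : Fin m → Fin n, Function.Injective μ ∧ ∀ j, (i, μ j) ∈ U := by
  classical
  unfold blocksOf at hi
  rw [mem_filter] at hi
  obtain ⟨S, hS1, hS2⟩ := exists_subset_card_eq hi.2
  refine ⟨S.orderEmbOfFin hS2, (S.orderEmbOfFin hS2).injective, fun j => ?_⟩
  have h1 := hS1 (S.orderEmbOfFin_mem hS2 j)
  exact (mem_filter.1 h1).2

theorem composeR {n m N : ℕ} (hm : 0 < m) (hmn : m ≤ n) (hN : 0 < N) (t1 ell : ℕ) (ht1 : 1 ≤ t1)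
    (hell : 1 ≤ ell)
    (hcode : n * n ^ m * N * (n + 1) ^ (2 * m) ≤ (n - m).choose ((n - m) / 2))
    (hc : (3 ^ n * (n : ℝ) ^ (m * n) * (2 * (4 * (n : ℝ) ^ 2 + 5) ^ (2 * (ell + 1)))) *
      ((4 : ℝ) ^ n * (2 ^ n * (((ell + 1 : ℕ) : ℝ) / N) ^ t1 +
      8 ^ n / (m : ℝ) ^ t1)) ^ (ell + 1) < 1 / 2)
    (hcard : 2 * (2 * (4 * n ^ 2 + 5) ^ (2 * (ell + 1))) < m ^ (n * N)) :
    ∃ g : (Fin n → Bool) → Bool, Monotone g ∧ NonConst g ∧
      (∀ f : (Fin n → Bool) → Bool, NonConst f → ∀ F : Fml (Fin n × Fin n),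
        (∀ x, F.eval x = comp f g x) → ell < F.size) ∧
      ∀ (f : (Fin n → Bool) → Bool) (F : Fml (Fin n × Fin n)) (U : Set (Fin n × Fin n)),
        (∀ x, F.eval x = comp f g x) → F.HazardFree U → ∀ c : Fin n → Bool,
          NonConst (restr f (blocksOf m U) c) →
            ∃ φ : Fml (Fin n), (∀ a, φ.eval a = restr f (blocksOf m U) c a) ∧
              φ.HazardFree Set.univ ∧
              (Monotone (restr f (blocksOf m U) c) → φ.PosOn Set.univ) ∧
              φ.size * ell ≤ 6 * (2 * (2 * t1 - 1) * (4 ^ (2 * t1 - 1) * nsub n (2 * t1 - 1)) +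
                2 * n) * F.size := by
  classical
  have hn : 0 < n := lt_of_lt_of_le hm hmn
  obtain ⟨kap, hk⟩ := exists_code hcode
  obtain ⟨P, hPc, hPm, hPp, hPf⟩ := exists_pieces (Set.univ : Set ((Fin n × Fin n) × Bool)) ell
  have hvars : 2 * Fintype.card ((Fin n × Fin n) × Bool) + 5 = 4 * n ^ 2 + 5 := by
    rw [Fintype.card_prod, Fintype.card_prod, Fintype.card_fin, Fintype.card_bool]
    ring
  rw [hvars] at hPc
  -- the family of all systems
  set Φ : Finset ((Fin n → Fin N) → (Fin n × Bool → Fin m → Bool) → Bool) :=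
    ((univ : Finset (Fin n → Option Bool)) ×ˢ ((univ : Finset (Fin n → Fin m → Fin n)) ×ˢ P)).image
      (fun q => fun σ T => q.2.2 (lits kap q.1 q.2.1 σ T)) with hΦdef
  have hΦc : Φ.card ≤ 3 ^ n * n ^ (m * n) * (2 * (4 * n ^ 2 + 5) ^ (2 * (ell + 1))) := by
    refine le_trans card_image_le ?_
    rw [card_product, card_product, card_univ, card_univ, Fintype.card_fun, Fintype.card_fun,
      Fintype.card_fun, Fintype.card_option, Fintype.card_bool, Fintype.card_fin, Fintype.card_fin,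
      ← pow_mul, ← mul_assoc]
    exact Nat.mul_le_mul_left _ hPc
  have hΦm : ∀ H ∈ Φ, ∀ σ, MonoTabR (H σ) := by
    intro H hH σ
    rw [hΦdef, mem_image] at hH
    obtain ⟨q, hq, rfl⟩ := hH
    rw [mem_product, mem_product] at hq
    exact monoTabR_lits (hPm _ hq.2.2) q.1 q.2.1 σ
  have hc' : (Φ.card : ℝ) * ((4 : ℝ) ^ n * (2 ^ n * (((ell + 1 : ℕ) : ℝ) / N) ^ t1 +
      8 ^ n / (m : ℝ) ^ t1)) ^ (ell + 1) < 1 / 2 := by
    refine lt_of_le_of_lt ?_ hc
    refine mul_le_mul_of_nonneg_right ?_ (by positivity)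
    exact_mod_cast hΦc
  -- small formulas
  set P0 : Finset ((Fin n × Fin n → Bool) → Bool) :=
    P.image (fun h x => h (fun p => decide (x p.1 = p.2))) with hP0
  set E0 : Finset (Fin n → Fin N → Fin m) :=
    univ.filter (fun e => ∃ f : (Fin n → Bool) → Bool, NonConst f ∧
      comp f (gfunR kap e) ∈ P0) with hE0
  have hE0c : E0.card ≤ P.card := by
    refine le_trans ?_ (card_image_le (s := P)
      (f := fun h (x : Fin n × Fin n → Bool) => h (fun p => decide (x p.1 = p.2))))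
    have hex : ∀ e ∈ E0, ∃ f : (Fin n → Bool) → Bool, NonConst f ∧
        comp f (gfunR kap e) ∈ P0 := fun e he => (mem_filter.1 he).2
    choose! F hF1 hF2 using hex
    refine card_le_card_of_injOn (fun e => comp (F e) (gfunR kap e)) (fun e he => hF2 e he) ?_
    intro e he e' he' hee
    exact gfunR_inj hk hmn hn hN e e' (F e) (F e') (hF1 e he) (hF1 e' he') hee
  have hE0' : 2 * E0.card < m ^ (n * N) :=
    lt_of_le_of_lt (Nat.mul_le_mul_left 2 (le_trans hE0c hPc)) hcard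
  obtain ⟨e, heE, heH⟩ := selectR hm hN t1 (ell + 1) ht1 Φ hΦm E0 hc' hE0'
  have hsmall : ∀ f : (Fin n → Bool) → Bool, NonConst f → ∀ F : Fml (Fin n × Fin n),
        (∀ x, F.eval x = comp f (gfunR kap e) x) → ell < F.size := by
    intro f hf F hF
    by_contra hcon
    push Not at hcon
    refine heE ?_
    rw [hE0, mem_filter]
    refine ⟨mem_univ _, f, hf, ?_⟩
    rw [hP0, mem_image]
    refine ⟨fun x => F.dl.eval x, hPf F.dl (by rw [Fml.size_dl]; exact hcon) (Fml.posOn_dl F _), ?_⟩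
    funext x
    show F.dl.eval (fun p => decide (x p.1 = p.2)) = _
    rw [Fml.eval_dl, hF]
  refine ⟨gfunR kap e, gfunR_mono e, ⟨⟨_, gfunR_true hn hN e⟩, ⟨_, gfunR_false e⟩⟩, hsmall, ?_⟩
  intro f F U hF hU c hnc
  set B := blocksOf m U with hB
  set C : Fin n → Option Bool := fun i => if i ∈ B then none else some (c i) with hC
  have hMex : ∀ i : Fin n, ∃ μ : Fin m → Fin n, i ∈ B → Function.Injective μ ∧
      ∀ j, (i, μ j) ∈ U := by
    intro i
    by_cases hi : i ∈ B
    · obtain ⟨μ, h1, h2⟩ := ComposeR_pos hi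
      exact ⟨μ, fun _ => ⟨h1, h2⟩⟩
    · exact ⟨fun _ => ⟨0, hn⟩, fun h => absurd h hi⟩
  choose M hM using hMex
  have hCM : ∀ i, C i = none → Function.Injective (M i) ∧ ∀ j, (i, M i j) ∈ U := by
    intro i hi
    refine hM i ?_
    by_contra hcon
    rw [hC] at hi
    simp only [if_neg hcon] at hi
    cases hi
  have hfc : (fun y : Fin n → Bool => f (fun i => (C i).getD (y i))) = restr f B c := by
    funext y
    unfold restr
    congr 1
    funext i
    rw [hC]
    by_cases hi : i ∈ B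
    · simp only [if_pos hi, Option.getD_none]
    · simp only [if_neg hi, Option.getD_some]
  have hfnc : NonConst f := by
    obtain ⟨⟨x, hx⟩, ⟨y, hy⟩⟩ := hnc
    exact ⟨⟨_, hx⟩, ⟨_, hy⟩⟩
  set A : ℕ := 2 * (2 * t1 - 1) * (4 ^ (2 * t1 - 1) * nsub n (2 * t1 - 1)) + 2 * n with hA
  have hpiece : ∀ ψ : Fml (Option ((Fin n × Fin n) × Bool)), ψ.size ≤ ell + 1 →
      ψ.PosOn (hole Set.univ) → ∀ b : Bool,
        CostR kap e C M (fun x => ψ.eval (fun o => o.elim b x)) (N ^ n * A) := by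
    intro ψ hψ hψp b
    have hmem := hPp ψ hψ hψp b
    refine costR_piece (hPm _ hmem) (le_of_lt ?_)
    refine heH (fun σ T => (fun x : (Fin n × Fin n) × Bool → Bool =>
      ψ.eval (fun o => o.elim b x)) (lits kap C M σ T)) ?_
    rw [hΦdef, mem_image]
    exact ⟨(C, M, fun x => ψ.eval (fun o => o.elim b x)),
      mem_product.2 ⟨mem_univ _, mem_product.2 ⟨mem_univ _, hmem⟩⟩, rfl⟩
  have hdec := decomp (Set.univ : Set ((Fin n × Fin n) × Bool)) ell hell (CostR kap e C M)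
    (fun h c c' hcc hb => hb.mono hcc) (fun h h' c c' hb hb' => hb.and hb')
    (fun h h' c c' hb hb' => hb.or hb') (N ^ n * A) hpiece F.dl (Fml.posOn_dl F _)
  rw [Fml.size_dl] at hdec
  rcases hdec with hle | ⟨K, hK1, s, hs1, hs2⟩
  · exact absurd hle (not_le.2 (hsmall f hfnc F hF))
  · obtain ⟨σ, _, hσ⟩ := exists_min_image (univ : Finset (Fin n → Fin N)) s
      ⟨fun _ => ⟨0, hN⟩, mem_univ _⟩
    have h5 : N ^ n * s σ ≤ (K + 2) * (N ^ n * A) := by
      refine le_trans ?_ hs2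
      calc N ^ n * s σ = ∑ _σ : Fin n → Fin N, s σ := by
            rw [sum_const, card_univ, Fintype.card_fun, Fintype.card_fin, Fintype.card_fin,
              smul_eq_mul]
        _ ≤ _ := sum_le_sum (fun σ' _ => hσ σ' (mem_univ _))
    have h6 : 0 < N ^ n := Nat.pow_pos hN
    have h7 : s σ ≤ (K + 2) * A := by
      refine Nat.le_of_mul_le_mul_left ?_ h6
      refine le_trans h5 (le_of_eq ?_)
      ring
    obtain ⟨φ, hφ1, hφ2, hφ3⟩ := hs1 σ
    have hcomp := computes_of_sep hk hn hN e C M σ f F U hF hU hCM φ hφ2 hφ3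
    rw [hfc] at hcomp
    obtain ⟨ψ, hψ1, hψ2, hψ3, hψ4⟩ := exists_hazardFree φ (restr f B c) hnc hcomp
    refine ⟨ψ, hψ1, hψ2, hψ3, ?_⟩
    calc ψ.size * ell ≤ ((K + 2) * A) * ell :=
          Nat.mul_le_mul_right _ (le_trans hψ4 (le_trans hφ1 h7))
      _ = ((K + 2) * ell) * A := by ring
      _ ≤ (6 * F.size) * A := by
          refine Nat.mul_le_mul_right _ (le_trans ?_ hK1)
          exact Nat.mul_le_mul_right _ (by omega)
      _ = _ := by ring

end MP979
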