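import Pool.Agent.Lib.MP_979eef_lc.K.NotHard
import Pool.Agent.Lib.MP_979eef_lc.K.SepOps
import Pool.Agent.Lib.MP_979eef_lc.H.Defs

/-!
# Module ExpandR

For monotone `f`: if every restriction `restr f B c` satisfies `Sep s (restr f B c) (restr f B c)` then
`Sep (2 ^ A.card * (s + 1) - 1) (restr f (univ \ A') ..)`: induction over the complement. Claim for
every finset `A` disjoint from `B`: for all `c`, `Sep (2 ^ A.card * (s + 1) - 1) (restr f (B ∪ A) c)
(restr f (B ∪ A) c)`. Step `insert i A`: `restr f (B ∪ insert i A) c a = g0 a || (a i && g1 a)`, where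
`g0 = restr f (B ∪ A) (update c i false)`, `g1 = restr f (B ∪ A) (update c i true)`, `g0 ≤ g1`
(monotone); `Sep 1` for the variable `a i`; `Sep.and`, `Sep.or`. For `A` the complement of `B`:
`restr f univ c = f`. Then `monoSize f ≤ 2 ^ (n - B.card) * (s + 1) - 1` by `monoSize_le_of_sep`.
The restrictions: non-constant ones have `Sep s` since `monoSize ≤ s` (`Nat.sInf_mem`, the set is
nonempty by `sep_self`, `exists_fml_of_sep` for the monotone function `restr f B c`; a positive `Fml`
is an `MF` of the same size), constant ones are separated by `MF.const`, size `0`.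
-/

set_option autoImplicit false

namespace MP979

open Finset

theorem restr_mono {n : ℕ} {f : (Fin n → Bool) → Bool} (hf : Monotone f) (B : Finset (Fin n))
    (c : Fin n → Bool) : Monotone (restr f B c) := by
  intro a a' haa
  refine hf (fun i => ?_)
  by_cases hi : i ∈ B
  · simp only [if_pos hi]
    exact haa i
  · simp only [if_neg hi]
    exact le_refl _

private theorem ExpandR_split {n : ℕ} {f : (Fin n → Bool) → Bool} (hf : Monotone f)
    (B : Finset (Fin n)) (i : Fin n) (hi : i ∉ B) (c a : Fin n → Bool) :
    restr f (insert i B) c a = (restr f B (Function.update c i false) a ||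
      (a i && restr f B (Function.update c i true) a)) := by
  have hle : restr f B (Function.update c i false) a ≤ restr f B (Function.update c i true) a := by
    refine hf (fun l => ?_)
    by_cases hl : l ∈ B
    · simp only [if_pos hl]
      exact le_refl _
    · simp only [if_neg hl]
      by_cases hli : l = i
      · subst hli
        rw [Function.update_self, Function.update_self]
        exact Bool.false_le _
      · rw [Function.update_of_ne hli, Function.update_of_ne hli]
  have hx : restr f (insert i B) c a = restr f B (Function.update c i (a i)) a := by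
    unfold restr
    congr 1
    funext l
    by_cases hl : l ∈ B
    · rw [if_pos hl, if_pos (mem_insert_of_mem hl)]
    · rw [if_neg hl]
      by_cases hli : l = i
      · subst hli
        rw [if_pos (mem_insert_self _ _), Function.update_self]
      · rw [if_neg (fun h => (mem_insert.1 h).elim hli hl), Function.update_of_ne hli]
  rw [hx]
  cases hai : a i with
  | false => rw [Bool.false_and, Bool.or_false]
  | true =>
    rw [Bool.true_and]
    cases h0 : restr f B (Function.update c i false) a with
    | false => rw [Bool.false_or]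
    | true =>
      rw [h0] at hle
      rw [Bool.true_or]
      exact Bool.eq_true_of_true_le hle

private theorem ExpandR_mf {n : ℕ} (φ : Fml (Fin n)) (h : φ.PosOn Set.univ) :
    ∃ ψ : MF (Fin n), (∀ a, ψ.eval a = φ.eval a) ∧ ψ.size = φ.size := by
  induction φ with
  | lit i b =>
    have hb : b = true := h (Set.mem_univ _)
    subst hb
    refine ⟨MF.var i, fun a => ?_, rfl⟩
    simp [MF.eval, Fml.eval]
  | and p q hp hq =>
    obtain ⟨ψ, h1, h2⟩ := hp h.1
    obtain ⟨ψ', k1, k2⟩ := hq h.2
    exact ⟨MF.and ψ ψ', fun a => by simp only [MF.eval, Fml.eval, h1, k1],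
      by simp only [MF.size, Fml.size, h2, k2]⟩
  | or p q hp hq =>
    obtain ⟨ψ, h1, h2⟩ := hp h.1
    obtain ⟨ψ', k1, k2⟩ := hq h.2
    exact ⟨MF.or ψ ψ', fun a => by simp only [MF.eval, Fml.eval, h1, k1],
      by simp only [MF.size, Fml.size, h2, k2]⟩

private theorem ExpandR_base {n s : ℕ} {h : (Fin n → Bool) → Bool} (hm : Monotone h)
    (hs : NonConst h → monoSize h ≤ s) : Sep s h h := by
  by_cases hc : NonConst h
  · have hne : {s | ∃ φ : Fml (Fin n), φ.PosOn Set.univ ∧ (∀ x, φ.eval x = h x) ∧
        φ.size = s}.Nonempty := by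
      obtain ⟨φ, h1, h2, _⟩ := exists_fml_of_sep hc (sep_self hm)
      exact ⟨φ.size, φ, h1, h2, rfl⟩
    obtain ⟨φ, h1, h2, h3⟩ := Nat.sInf_mem hne
    obtain ⟨ψ, k1, k2⟩ := ExpandR_mf φ h1
    refine ⟨ψ, ?_, fun a ha => ?_, fun a ha => ?_⟩
    · rw [k2, h3]
      exact hs hc
    · rw [k1, h2]
      exact ha
    · rw [k1, h2] at ha
      exact ha
  · unfold NonConst at hc
    by_cases h1 : ∃ x, h x = true
    · have h2 : ∀ x, h x = true := by
        intro x
        by_contra hx
        exact hc ⟨h1, x, Bool.eq_false_iff.2 hx⟩
      exact ⟨MF.const true, Nat.zero_le _, fun a _ => rfl, fun a _ => h2 a⟩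
    · push Not at h1
      exact ⟨MF.const false, Nat.zero_le _, fun a ha => absurd ha (h1 a), fun a ha => by
        simp [MF.eval] at ha⟩

theorem expand_blocks {n : ℕ} {f : (Fin n → Bool) → Bool} (hf : Monotone f) (hc : NonConst f)
    (B : Finset (Fin n)) (s : ℕ)
    (h : ∀ c, NonConst (restr f B c) → monoSize (restr f B c) ≤ s) :
    monoSize f + 1 ≤ 2 ^ (n - B.card) * (s + 1) := by
  have main : ∀ A : Finset (Fin n), Disjoint A B → ∀ c,
      Sep (2 ^ A.card * (s + 1) - 1) (restr f (B ∪ A) c) (restr f (B ∪ A) c) := by
    intro A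
    induction A using Finset.induction_on with
    | empty =>
      intro _ c
      rw [card_empty, pow_zero, one_mul, Nat.add_sub_cancel, union_empty]
      exact ExpandR_base (restr_mono hf B c) (h c)
    | insert i A hi ih =>
      intro hd c
      rw [disjoint_insert_left] at hd
      have hiu : i ∉ B ∪ A := fun h => (mem_union.1 h).elim hd.1 hi
      have e : restr f (B ∪ insert i A) c = fun a => restr f (B ∪ A) (Function.update c i false) a ||
          (a i && restr f (B ∪ A) (Function.update c i true) a) := by
        funext a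
        rw [union_insert, ExpandR_split hf _ i hiu]
      have hv : Sep 1 (fun a : Fin n → Bool => a i) (fun a => a i) :=
        ⟨MF.var i, le_refl _, fun a ha => ha, fun a ha => ha⟩
      have h0 := ih hd.2 (Function.update c i false)
      have h1 := ih hd.2 (Function.update c i true)
      have h2 := Sep.or h0 (Sep.and hv h1)
      rw [e]
      refine h2.mono (le_of_eq ?_)
      rw [card_insert_of_notMem hi, pow_succ]
      have h3 : 1 ≤ 2 ^ A.card * (s + 1) := Nat.one_le_iff_ne_zero.2 (by positivity)
      have h4 : 2 ^ A.card * 2 * (s + 1) = 2 ^ A.card * (s + 1) + 2 ^ A.card * (s + 1) := by ring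
      omega
  have h1 := main Bᶜ disjoint_compl_left (fun _ => false)
  have h2 : restr f (B ∪ Bᶜ) (fun _ => false) = f := by
    funext a
    unfold restr
    congr 1
    funext i
    rw [if_pos (by rw [union_compl]; exact mem_univ _)]
  rw [h2, card_compl, Fintype.card_fin] at h1
  have h3 := monoSize_le_of_sep hc h1
  have h4 : 1 ≤ 2 ^ (n - B.card) * (s + 1) := Nat.one_le_iff_ne_zero.2 (by positivity)
  omega

end MP979
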