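import Pool.Agent.Lib.MP_979eef_lc.K.HardCount
import Pool.Agent.Lib.MP_979eef_lc.H.Defs

/-!
# Module HardCountR

As K/HardCount.lean. Fix the witness `z` (at most `2 ^ (2 * n)` choices). Two vectors `v, v'` which are
hard with the same witness agree in more than `t` rows: otherwise take `A = {i | v i = v' i}`; then
`lowR v (z on A, true off A) ≤ highR v' (z on A, false off A)` entrywise, contradiction. So, as there,
the number of `v` with `v = w` on `K` which are hard with witness `z` is at most
`2 ^ n * m ^ (n - K.card) / m ^ (t + 1 - K.card)` (`card_agree` is in K/HardCount.lean), and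
`4 ^ n * 2 ^ n = 8 ^ n`.
-/

set_option autoImplicit false

namespace MP979

open Finset

/-- `α` witnesses that `v` is hard. -/
private def HardCountR_wit {n m : ℕ} (t : ℕ) (H : (Fin n × Bool → Fin m → Bool) → Bool)
    (α : Fin n × Bool → Bool) (v : Fin n → Fin m) : Prop :=
  ∀ A : Finset (Fin n), A.card ≤ t →
    H (lowR v (fun p => if p.1 ∈ A then α p else true)) = true ∧
      H (highR v (fun p => if p.1 ∈ A then α p else false)) = false

private lemma HardCountR_agree {n m t : ℕ} {H : (Fin n × Bool → Fin m → Bool) → Bool} (hH : MonoTabR H)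
    {α : Fin n × Bool → Bool} {v v' : Fin n → Fin m} (hv : HardCountR_wit t H α v)
    (hv' : HardCountR_wit t H α v') : t < (univ.filter (fun i => v i = v' i)).card := by
  by_contra hcon
  push Not at hcon
  have h1 := (hv _ hcon).1
  have h2 := (hv' _ hcon).2
  have h3 := hH _ (highR v' (fun p => if p.1 ∈ univ.filter (fun i => v i = v' i) then α p else false))
    (by
      intro p j hij
      unfold lowR at hij
      unfold highR
      rw [Bool.and_eq_true, decide_eq_true_eq] at hij
      rw [Bool.or_eq_true, decide_eq_true_eq]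
      beta_reduce at hij ⊢
      by_cases hi : v p.1 = v' p.1
      · have hmem : p.1 ∈ univ.filter (fun i => v i = v' i) := mem_filter.2 ⟨mem_univ _, hi⟩
        rw [if_pos hmem] at hij
        rw [if_pos hmem]
        exact Or.inl hij.1
      · exact Or.inr (fun h => hi (hij.2 ▸ h))) h1
  rw [h2] at h3
  exact Bool.false_ne_true h3

open Classical in
private lemma HardCountR_class {n m t : ℕ} (H : (Fin n × Bool → Fin m → Bool) → Bool) (hH : MonoTabR H)
    (K : Finset (Fin n)) (hK : K.card ≤ t) (w : Fin n → Fin m) (α : Fin n × Bool → Bool) :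
    (univ.filter (fun v : Fin n → Fin m =>
      (∀ i ∈ K, v i = w i) ∧ HardCountR_wit t H α v)).card * m ^ (t + 1 - K.card) ≤
      2 ^ n * m ^ (n - K.card) := by
  set C := univ.filter (fun v : Fin n → Fin m =>
      (∀ i ∈ K, v i = w i) ∧ HardCountR_wit t H α v) with hC
  rcases C.eq_empty_or_nonempty with hCe | ⟨v0, hv0⟩
  · rw [hCe, card_empty, zero_mul]
    exact Nat.zero_le _
  · have hv0' := hv0
    rw [hC, mem_filter] at hv0'
    obtain ⟨_, hv0K, hv0W⟩ := hv0'
    have htn : t + 1 ≤ n := by
      have h1 := HardCountR_agree hH hv0W hv0W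
      have h2 := card_le_univ (univ.filter (fun i : Fin n => v0 i = v0 i))
      rw [Fintype.card_fin] at h2
      omega
    have hsub : C ⊆ (powersetCard (t + 1 - K.card) Kᶜ).biUnion
        (fun B => univ.filter (fun v : Fin n → Fin m => ∀ i ∈ K ∪ B, v i = v0 i)) := by
      intro v hv
      rw [hC, mem_filter] at hv
      obtain ⟨_, hvK, hvW⟩ := hv
      have h1 := HardCountR_agree hH hvW hv0W
      have h2 : t + 1 - K.card ≤ ((univ.filter (fun i => v i = v0 i)) \ K).card := by
        have := le_card_sdiff K (univ.filter (fun i => v i = v0 i))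
        omega
      obtain ⟨B, hB1, hB2⟩ := exists_subset_card_eq h2
      rw [mem_biUnion]
      refine ⟨B, ?_, ?_⟩
      · rw [mem_powersetCard]
        refine ⟨fun i hi => ?_, hB2⟩
        rw [mem_compl]
        exact (mem_sdiff.1 (hB1 hi)).2
      · rw [mem_filter]
        refine ⟨mem_univ _, fun i hi => ?_⟩
        rcases mem_union.1 hi with hi | hi
        · rw [hvK i hi, hv0K i hi]
        · exact (mem_filter.1 (mem_sdiff.1 (hB1 hi)).1).2
    have hcard : C.card ≤ 2 ^ n * m ^ (n - (t + 1)) := by
      refine le_trans (card_le_card hsub) (le_trans card_biUnion_le ?_)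
      have h3 : ∀ B ∈ powersetCard (t + 1 - K.card) Kᶜ,
          (univ.filter (fun v : Fin n → Fin m => ∀ i ∈ K ∪ B, v i = v0 i)).card =
            m ^ (n - (t + 1)) := by
        intro B hB
        rw [mem_powersetCard] at hB
        have hd : Disjoint K B := by
          rw [Finset.disjoint_left]
          intro i hi hi'
          exact (mem_compl.1 (hB.1 hi')) hi
        rw [card_agree (K ∪ B) v0, card_union_of_disjoint hd, hB.2]
        congr 2
        omega
      rw [sum_congr rfl h3, sum_const, smul_eq_mul]
      refine Nat.mul_le_mul_right _ ?_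
      have h4 : (powersetCard (t + 1 - K.card) Kᶜ).card ≤ (univ : Finset (Finset (Fin n))).card :=
        card_le_card (subset_univ _)
      rw [card_univ, Fintype.card_finset, Fintype.card_fin] at h4
      exact h4
    calc C.card * m ^ (t + 1 - K.card) ≤ 2 ^ n * m ^ (n - (t + 1)) * m ^ (t + 1 - K.card) :=
          Nat.mul_le_mul_right _ hcard
      _ = 2 ^ n * m ^ (n - K.card) := by
          rw [mul_assoc, ← pow_add]
          congr 2
          omega

open Classical in
theorem hardR_count {n m t : ℕ} (H : (Fin n × Bool → Fin m → Bool) → Bool) (hH : MonoTabR H)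
    (K : Finset (Fin n)) (hK : K.card ≤ t) (w : Fin n → Fin m) :
    (univ.filter (fun v : Fin n → Fin m => (∀ i ∈ K, v i = w i) ∧ HardR t H v)).card *
      m ^ (t + 1 - K.card) ≤ 8 ^ n * m ^ (n - K.card) := by
  have hsub : (univ.filter (fun v : Fin n → Fin m => (∀ i ∈ K, v i = w i) ∧ HardR t H v)) ⊆
      (univ : Finset (Fin n × Bool → Bool)).biUnion (fun α => univ.filter (fun v : Fin n → Fin m =>
        (∀ i ∈ K, v i = w i) ∧ HardCountR_wit t H α v)) := by
    intro v hv
    rw [mem_filter] at hv
    obtain ⟨_, hvK, α, hα⟩ := hv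
    rw [mem_biUnion]
    exact ⟨α, mem_univ _, mem_filter.2 ⟨mem_univ _, hvK, hα⟩⟩
  calc (univ.filter (fun v : Fin n → Fin m => (∀ i ∈ K, v i = w i) ∧ HardR t H v)).card *
      m ^ (t + 1 - K.card)
      ≤ (∑ α : Fin n × Bool → Bool, (univ.filter (fun v : Fin n → Fin m =>
        (∀ i ∈ K, v i = w i) ∧ HardCountR_wit t H α v)).card) * m ^ (t + 1 - K.card) :=
        Nat.mul_le_mul_right _ (le_trans (card_le_card hsub) card_biUnion_le)
    _ = ∑ α : Fin n × Bool → Bool, (univ.filter (fun v : Fin n → Fin m =>
        (∀ i ∈ K, v i = w i) ∧ HardCountR_wit t H α v)).card * m ^ (t + 1 - K.card) :=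
        sum_mul _ _ _
    _ ≤ ∑ _α : Fin n × Bool → Bool, 2 ^ n * m ^ (n - K.card) :=
        sum_le_sum (fun α _ => HardCountR_class H hH K hK w α)
    _ = 8 ^ n * m ^ (n - K.card) := by
        rw [sum_const, card_univ, Fintype.card_fun, Fintype.card_prod, Fintype.card_fin,
          Fintype.card_bool, smul_eq_mul, ← mul_assoc, mul_comm n 2, pow_mul, ← mul_pow]
        norm_num

end MP979
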