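import Pool.Agent.Lib.MP_979eef_lc.H.Defs

/-!
# Module InnerR

`gfunR` is an OR of ANDs of variables: monotone, `false` at the zero vector (each term contains the
variable `μ (e i s)`), `true` at the one vector if `0 < n`, `0 < N` (any index will do).
`gfunR_cell`: let `x` agree with `kap i μ s` off the range of `μ`. Term `(i, μ, s)` is satisfied iff
`x (μ (e i s)) = true` (`kap i μ s` avoids the range of `μ`). If another term `(i', μ', s')` is
satisfied then `kap i' μ' s' ⊆ {k | x k = true} ⊆ kap i μ s ∪ range μ`, so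
`(kap i' μ' s' \ kap i μ s).card ≤ m`, and the indices are equal by `far`.
`comp_cell`: block by block.
-/

set_option autoImplicit false

namespace MP979

open Finset

variable {n m N : ℕ} {kap : Fin n → (Fin m → Fin n) → Fin N → Finset (Fin n)}

theorem gfunR_mono (e : Fin n → Fin N → Fin m) : Monotone (gfunR kap e) := by
  intro x y hxy
  have hxy' : ∀ j, x j = true → y j = true := by
    intro j hj
    have h1 := hxy j
    rw [hj] at h1
    exact top_le_iff.mp h1
  rw [Bool.le_iff_imp]
  intro h
  unfold gfunR at h ⊢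
  rw [decide_eq_true_eq] at h ⊢
  obtain ⟨i, μ, s, h1, h2⟩ := h
  exact ⟨i, μ, s, fun j hj => hxy' j (h1 j hj), hxy' _ h2⟩

theorem gfunR_false (e : Fin n → Fin N → Fin m) : gfunR kap e (fun _ => false) = false := by
  unfold gfunR
  rw [decide_eq_false_iff_not]
  rintro ⟨i, μ, s, _, h2⟩
  exact Bool.false_ne_true h2

theorem gfunR_true (hn : 0 < n) (hN : 0 < N) (e : Fin n → Fin N → Fin m) :
    gfunR kap e (fun _ => true) = true := by
  unfold gfunR
  rw [decide_eq_true_eq]
  exact ⟨⟨0, hn⟩, fun _ => ⟨0, hn⟩, ⟨0, hN⟩, fun _ _ => rfl, rfl⟩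

theorem gfunR_cell (hk : Code kap) (e : Fin n → Fin N → Fin m) (i : Fin n) (μ : Fin m → Fin n)
    (s : Fin N) (x : Fin n → Bool) (hx : ∀ k, (∀ j, μ j ≠ k) → x k = decide (k ∈ kap i μ s)) :
    gfunR kap e x = x (μ (e i s)) := by
  unfold gfunR
  cases hS : x (μ (e i s)) with
  | false =>
    rw [decide_eq_false_iff_not]
    rintro ⟨i', μ', s', h1, h2⟩
    have hsub : kap i' μ' s' \ kap i μ s ⊆ univ.image μ := by
      intro k hk'
      rw [mem_sdiff] at hk'
      by_contra hkM
      have hkM' : ∀ j, μ j ≠ k := by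
        intro j hj
        exact hkM (mem_image.mpr ⟨j, mem_univ _, hj⟩)
      have h3 := hx k hkM'
      rw [h1 k hk'.1] at h3
      exact hk'.2 (decide_eq_true_eq.mp h3.symm)
    have hcard : (kap i' μ' s' \ kap i μ s).card ≤ m := by
      refine le_trans (card_le_card hsub) (le_trans card_image_le (le_of_eq ?_))
      rw [card_univ, Fintype.card_fin]
    obtain ⟨rfl, rfl, rfl⟩ := hk.far i μ s i' μ' s' hcard
    rw [hS] at h2
    exact Bool.false_ne_true h2
  | true =>
    rw [decide_eq_true_eq]
    refine ⟨i, μ, s, fun k hk' => ?_, hS⟩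
    have hkM : ∀ j, μ j ≠ k := by
      intro j hj
      exact hk.avoid i μ s j (hj ▸ hk')
    rw [hx k hkM]
    exact decide_eq_true hk'

theorem comp_cell (hk : Code kap) (hn : 0 < n) (hN : 0 < N) (e : Fin n → Fin N → Fin m)
    (C : Fin n → Option Bool) (M : Fin n → Fin m → Fin n) (σ : Fin n → Fin N)
    (f : (Fin n → Bool) → Bool) (y : Fin n × Fin n → Bool)
    (hy1 : ∀ i b, C i = some b → ∀ k, y (i, k) = b)
    (hy2 : ∀ i, C i = none → ∀ k, (∀ j, M i j ≠ k) → y (i, k) = decide (k ∈ kap i (M i) (σ i))) :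
    comp f (gfunR kap e) y = f (fun i => (C i).getD (y (i, M i (pick e σ i)))) := by
  unfold comp
  congr 1
  funext i
  cases hC : C i with
  | none =>
    rw [Option.getD_none]
    exact gfunR_cell hk e i (M i) (σ i) (fun j => y (i, j)) (hy2 i hC)
  | some b =>
    rw [Option.getD_some]
    have h1 : (fun j => y (i, j)) = fun _ => b := funext (hy1 i b hC)
    rw [h1]
    cases b with
    | false => exact gfunR_false e
    | true => exact gfunR_true hn hN e

end MP979
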