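import Pool.Agent.Lib.MP_979eef_lc.K.Defs

/-!
# Module NumAR

As K/NumA.lean (copy and adapt). `u = n / b`, `E = 2 ^ (n - 3 * u)`, `N = E * 2 ^ u = 2 ^ (n - 2 * u)`,
`m = 2 ^ (10 * b)` a constant. (1) `r.choose (r / 2) * (r + 1) ≥ 2 ^ r`, `r = n - m`, so it suffices
that `n * n ^ m * (n + 1) ^ (2 * m) * (n + 1) * 2 ^ m ≤ 4 ^ u`, true for large `n`.
(2) `(E / N) ^ (u + 1) = 2 ^ (-u (u + 1)) ≤ 2 ^ (-8 n - 1)` for `n` large, `8 ^ n / m ^ (u + 1) ≤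
2 ^ (3 n - 10 n)`; so the bracket is `≤ 2 ^ (2n) (2 ^ n 2 ^ (-8n-1) + 2 ^ (-7n)) ≤ 2 ^ (-5 n + 1)`;
`4 n^2 + 5 ≤ 2 ^ n`, `3 ^ n * n ^ (m * n) ≤ 2 ^ (n * E)` for `n` large (`3 * n ^ m ≤ 2 ^ E`); in total
`2 * 2 ^ (2 n E + n E - (5 n - 1) E) = 2 * 2 ^ (-(2 n - 1) E) < 1 / 2`.
(3) `2 * 2 * 2 ^ (2 n E) < 2 ^ (10 b n N)`.
-/

set_option autoImplicit false

namespace MP979

open Finset Filter

private theorem NumAR_poly (n : ℕ) (hn : 9 ≤ n) : 4 * n ^ 2 + 5 ≤ 2 ^ n := by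
  induction n, hn using Nat.le_induction with
  | base => norm_num
  | succ n hn ih =>
    rw [pow_succ 2 n]
    nlinarith

private theorem NumAR_choose (r : ℕ) : 2 ^ r ≤ (r + 1) * r.choose (r / 2) := by
  rw [← Nat.sum_range_choose]
  calc ∑ i ∈ range (r + 1), r.choose i ≤ ∑ i ∈ range (r + 1), r.choose (r / 2) :=
        sum_le_sum fun i _ => Nat.choose_le_middle i r
    _ = (r + 1) * r.choose (r / 2) := by rw [sum_const, card_range, smul_eq_mul]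

/-- polynomials against exponentials -/
private theorem NumAR_ev (b m : ℕ) : ∃ u0 : ℕ, ∀ u ≥ u0,
    (2 * b * u) ^ (3 * m + 2) * 2 ^ m ≤ 4 ^ u ∧ 2 + m * (2 * b * u) ≤ 2 ^ u := by
  have h1 := (tendsto_pow_const_div_const_pow_of_one_lt (3 * m + 2)
    (show (1 : ℝ) < 4 by norm_num)).eventually
    (gt_mem_nhds (show (0 : ℝ) < 1 / (((2 * b : ℕ) : ℝ) ^ (3 * m + 2) * 2 ^ m + 1) by positivity))
  have h2 := (tendsto_pow_const_div_const_pow_of_one_lt 1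
    (show (1 : ℝ) < 2 by norm_num)).eventually
    (gt_mem_nhds (show (0 : ℝ) < 1 / ((m * (2 * b) : ℕ) + 2 : ℝ) by positivity))
  obtain ⟨u1, hu1⟩ := eventually_atTop.mp (h1.and h2)
  refine ⟨max u1 1, fun u hu => ?_⟩
  obtain ⟨h3, h4⟩ := hu1 u (le_trans (le_max_left _ _) hu)
  have hu1' : 1 ≤ u := le_trans (le_max_right _ _) hu
  have hu1R : (1 : ℝ) ≤ u := by exact_mod_cast hu1'
  constructor
  · rw [div_lt_div_iff₀ (by positivity) (by positivity), one_mul] at h3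
    have h5 : (((2 * b * u) ^ (3 * m + 2) * 2 ^ m : ℕ) : ℝ) ≤ ((4 ^ u : ℕ) : ℝ) := by
      push_cast
      push_cast at h3
      have h6 : (0 : ℝ) ≤ (u : ℝ) ^ (3 * m + 2) := by positivity
      calc (2 * (b : ℝ) * u) ^ (3 * m + 2) * 2 ^ m
          = (u : ℝ) ^ (3 * m + 2) * ((2 * (b : ℝ)) ^ (3 * m + 2) * 2 ^ m) := by
            rw [mul_pow (2 * (b : ℝ)) (u : ℝ)]; ring
        _ ≤ (u : ℝ) ^ (3 * m + 2) * ((2 * (b : ℝ)) ^ (3 * m + 2) * 2 ^ m + 1) := by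
            refine mul_le_mul_of_nonneg_left (by linarith) h6
        _ ≤ 4 ^ u := le_of_lt h3
    exact_mod_cast h5
  · rw [div_lt_div_iff₀ (by positivity) (by positivity), one_mul, pow_one] at h4
    have h5 : ((2 + m * (2 * b * u) : ℕ) : ℝ) ≤ ((2 ^ u : ℕ) : ℝ) := by
      push_cast
      push_cast at h4
      nlinarith
    exact_mod_cast h5

/-- the two inequalities from the facts about `u`, `N`, `E` -/
private theorem NumAR_main (b n m u N E : ℕ) (hm : m = 2 ^ (10 * b)) (hb : 8 ≤ b) (hn : 9 ≤ n)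
    (hE1 : 1 ≤ E) (hEN : E * 2 ^ u ≤ N) (hbu : n ≤ b * (u + 1)) (hu : 8 * n + 1 ≤ u * (u + 1))
    (hEm : 2 + m * n ≤ E) :
    (3 ^ n * (n : ℝ) ^ (m * n) * (2 * (4 * (n : ℝ) ^ 2 + 5) ^ (2 * E))) *
        ((4 : ℝ) ^ n * (2 ^ n * ((E : ℝ) / N) ^ (u + 1) +
        8 ^ n / ((2 : ℝ) ^ (10 * b)) ^ (u + 1))) ^ E < 1 / 2 ∧
      2 * (2 * (4 * n ^ 2 + 5) ^ (2 * E)) < m ^ (n * N) := by
  have hp := NumAR_poly n hn
  have h2u : 1 ≤ 2 ^ u := Nat.one_le_two_pow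
  have hEN' : E ≤ N := by nlinarith
  constructor
  · have hN0 : (0 : ℝ) < N := by
      have : 0 < N := by omega
      exact_mod_cast this
    have h1 : (E : ℝ) / N ≤ (1 / 2) ^ u := by
      rw [div_le_iff₀ hN0, one_div, inv_pow, inv_mul_eq_div, le_div_iff₀ (by positivity)]
      exact_mod_cast hEN
    have h2 : ((E : ℝ) / N) ^ (u + 1) ≤ (1 / 2) ^ (8 * n + 1) := by
      calc ((E : ℝ) / N) ^ (u + 1) ≤ ((1 / 2) ^ u) ^ (u + 1) :=
            pow_le_pow_left₀ (by positivity) h1 _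
        _ = (1 / 2) ^ (u * (u + 1)) := by rw [pow_mul]
        _ ≤ (1 / 2) ^ (8 * n + 1) := pow_le_pow_of_le_one (by norm_num) (by norm_num) hu
    have h3 : (8 : ℝ) ^ n / ((2 : ℝ) ^ (10 * b)) ^ (u + 1) ≤ 8 ^ n * (1 / 2) ^ (10 * n) := by
      rw [div_eq_mul_inv]
      have h4 : (((2 : ℝ) ^ (10 * b)) ^ (u + 1))⁻¹ ≤ (1 / 2) ^ (10 * n) := by
        rw [← pow_mul, one_div, inv_pow]
        apply inv_anti₀ (by positivity)
        apply pow_le_pow_right₀ (by norm_num)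
        calc 10 * n ≤ 10 * (b * (u + 1)) := Nat.mul_le_mul_left 10 hbu
          _ = 10 * b * (u + 1) := by ring
      gcongr
    have h5 : (4 : ℝ) ^ n * (2 ^ n * ((E : ℝ) / N) ^ (u + 1) +
        8 ^ n / ((2 : ℝ) ^ (10 * b)) ^ (u + 1)) ≤ (1 / 2) ^ (4 * n) := by
      calc (4 : ℝ) ^ n * (2 ^ n * ((E : ℝ) / N) ^ (u + 1) +
          8 ^ n / ((2 : ℝ) ^ (10 * b)) ^ (u + 1))
          ≤ (4 : ℝ) ^ n * (2 ^ n * (1 / 2) ^ (8 * n + 1) + 8 ^ n * (1 / 2) ^ (10 * n)) := by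
            gcongr
        _ = (1 / 2) ^ (5 * n) * (1 / 2) + (1 / 2) ^ (5 * n) := by
            have e2 : ∀ k l : ℕ, (2 : ℝ) ^ k * (1 / 2) ^ (k + l) = (1 / 2) ^ l := by
              intro k l
              rw [pow_add, ← mul_assoc, ← mul_pow]
              norm_num
            have e4 : (4 : ℝ) ^ n = 2 ^ (2 * n) := by rw [pow_mul]; norm_num
            have e8 : (8 : ℝ) ^ n = 2 ^ (3 * n) := by rw [pow_mul]; norm_num
            have a1 : (4 : ℝ) ^ n * (2 ^ n * (1 / 2) ^ (8 * n + 1)) = (1 / 2) ^ (5 * n + 1) := by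
              rw [e4, ← mul_assoc, ← pow_add, show 8 * n + 1 = (2 * n + n) + (5 * n + 1) by ring, e2]
            have a2 : (4 : ℝ) ^ n * (8 ^ n * (1 / 2) ^ (10 * n)) = (1 / 2) ^ (5 * n) := by
              rw [e4, e8, ← mul_assoc, ← pow_add, show 10 * n = (2 * n + 3 * n) + 5 * n by ring, e2]
            rw [mul_add, a1, a2, pow_succ]
        _ = (1 / 2) ^ (4 * n) * ((1 / 2) ^ n * (3 / 2)) := by
            rw [show 5 * n = 4 * n + n by ring, pow_add]; ring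
        _ ≤ (1 / 2) ^ (4 * n) * 1 := by
            have : ((1 / 2 : ℝ)) ^ n ≤ (1 / 2) ^ 1 :=
              pow_le_pow_of_le_one (by norm_num) (by norm_num) (by omega)
            have h7 : ((1 / 2 : ℝ)) ^ n * (3 / 2) ≤ 1 := by
              rw [pow_one] at this
              linarith
            exact mul_le_mul_of_nonneg_left h7 (by positivity)
        _ = (1 / 2) ^ (4 * n) := mul_one _
    have h6 : (4 * (n : ℝ) ^ 2 + 5) ^ (2 * E) ≤ (2 ^ n) ^ (2 * E) := by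
      apply pow_le_pow_left₀ (by positivity)
      exact_mod_cast hp
    have h7 : ((4 : ℝ) ^ n * (2 ^ n * ((E : ℝ) / N) ^ (u + 1) +
        8 ^ n / ((2 : ℝ) ^ (10 * b)) ^ (u + 1))) ^ E ≤ ((1 / 2) ^ (4 * n)) ^ E :=
      pow_le_pow_left₀ (by positivity) h5 E
    have h10 : (3 : ℝ) ^ n * (n : ℝ) ^ (m * n) ≤ (2 ^ E) ^ n := by
      rw [pow_mul, ← mul_pow]
      refine pow_le_pow_left₀ (by positivity) ?_ n
      have h11 : (n : ℝ) ≤ 2 ^ n := by exact_mod_cast (Nat.lt_two_pow_self (n := n)).le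
      calc (3 : ℝ) * (n : ℝ) ^ m ≤ 2 ^ 2 * (2 ^ n) ^ m := by
            have : (n : ℝ) ^ m ≤ (2 ^ n) ^ m := pow_le_pow_left₀ (by positivity) h11 m
            have h12 : (0 : ℝ) ≤ (n : ℝ) ^ m := by positivity
            nlinarith
        _ = 2 ^ (2 + n * m) := by rw [← pow_mul, ← pow_add]
        _ ≤ 2 ^ E := by
            apply pow_le_pow_right₀ (by norm_num)
            rw [mul_comm n m]
            exact hEm
    have h8 : ((2 : ℝ) ^ E) ^ n * (((2 : ℝ) ^ n) ^ (2 * E) * ((1 / 2) ^ (4 * n)) ^ E) =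
        (1 / 2) ^ (n * E) := by
      rw [← pow_mul, ← pow_mul, ← pow_mul, show n * (2 * E) = n * E + n * E by ring,
        show 4 * n * E = n * E + (n * E + (n * E + n * E)) by ring, mul_comm E n]
      have e2 : ∀ k l : ℕ, (2 : ℝ) ^ k * (1 / 2) ^ (k + l) = (1 / 2) ^ l := by
        intro k l
        rw [pow_add, ← mul_assoc, ← mul_pow]
        norm_num
      rw [pow_add (2 : ℝ) (n * E) (n * E), mul_assoc ((2 : ℝ) ^ (n * E)), e2, e2, e2]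
    have h9 : ((1 / 2 : ℝ)) ^ (n * E) ≤ (1 / 2) ^ 3 := by
      apply pow_le_pow_of_le_one (by norm_num) (by norm_num)
      nlinarith
    calc (3 ^ n * (n : ℝ) ^ (m * n) * (2 * (4 * (n : ℝ) ^ 2 + 5) ^ (2 * E))) *
        ((4 : ℝ) ^ n * (2 ^ n * ((E : ℝ) / N) ^ (u + 1) +
        8 ^ n / ((2 : ℝ) ^ (10 * b)) ^ (u + 1))) ^ E
        ≤ ((2 ^ E) ^ n * (2 * (2 ^ n) ^ (2 * E))) * ((1 / 2) ^ (4 * n)) ^ E := by gcongr
      _ = 2 * (((2 : ℝ) ^ E) ^ n * (((2 : ℝ) ^ n) ^ (2 * E) * ((1 / 2) ^ (4 * n)) ^ E)) := by ring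
      _ = 2 * (1 / 2) ^ (n * E) := by rw [h8]
      _ ≤ 2 * (1 / 2) ^ 3 := by gcongr
      _ < 1 / 2 := by norm_num
  · calc 2 * (2 * (4 * n ^ 2 + 5) ^ (2 * E)) ≤ 2 * (2 * (2 ^ n) ^ (2 * E)) := by gcongr
      _ = 2 ^ (2 + n * (2 * E)) := by rw [← pow_mul, pow_add]; ring
      _ < 2 ^ (10 * b * (n * N)) := by
        apply Nat.pow_lt_pow_right (by norm_num)
        have h1 : n * E ≤ n * N := Nat.mul_le_mul_left n hEN'
        have h2 : 9 ≤ n * E := by nlinarith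
        have h3 : 80 * (n * N) ≤ 10 * b * (n * N) := Nat.mul_le_mul_right _ (by omega)
        have h4 : n * (2 * E) = 2 * (n * E) := by ring
        rw [h4]
        omega
      _ = m ^ (n * N) := by rw [hm, pow_mul]

theorem paramsR (b : ℕ) (hb : 8 ≤ b) : ∃ n0 : ℕ, ∀ n ≥ n0, ∃ N : ℕ, 0 < N ∧
    1 ≤ 2 ^ (n - 3 * (n / b)) - 1 ∧
      n * n ^ (2 ^ (10 * b)) * N * (n + 1) ^ (2 * 2 ^ (10 * b)) ≤
        (n - 2 ^ (10 * b)).choose ((n - 2 ^ (10 * b)) / 2) ∧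
      (3 ^ n * (n : ℝ) ^ (2 ^ (10 * b) * n) *
        (2 * (4 * (n : ℝ) ^ 2 + 5) ^ (2 * 2 ^ (n - 3 * (n / b))))) *
        ((4 : ℝ) ^ n * (2 ^ n * (((2 ^ (n - 3 * (n / b)) : ℕ) : ℝ) / N) ^ (n / b + 1) +
        8 ^ n / ((2 : ℝ) ^ (10 * b)) ^ (n / b + 1))) ^ (2 ^ (n - 3 * (n / b))) < 1 / 2 ∧
      2 * (2 * (4 * n ^ 2 + 5) ^ (2 * 2 ^ (n - 3 * (n / b)))) < (2 ^ (10 * b)) ^ (n * N) := by
  obtain ⟨m, hm⟩ : ∃ m : ℕ, m = 2 ^ (10 * b) := ⟨_, rfl⟩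
  obtain ⟨u1, hu1⟩ := NumAR_ev b m
  obtain ⟨u0, hu0⟩ : ∃ u0 : ℕ, u0 = u1 + (m + (9 * b + 9)) := ⟨_, rfl⟩
  refine ⟨b * u0, fun n hn => ?_⟩
  obtain ⟨u, hu⟩ : ∃ u : ℕ, u = n / b := ⟨_, rfl⟩
  have hb0 : 0 < b := by omega
  have hu2 : u0 ≤ u := by
    rw [hu, Nat.le_div_iff_mul_le hb0, mul_comm]
    exact hn
  have hbn : b * u ≤ n := by
    rw [hu]
    exact Nat.mul_div_le n b
  have hnb : n < b * (u + 1) := by
    rw [hu, mul_comm, ← Nat.div_lt_iff_lt_mul hb0]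
    omega
  rw [← hm, ← hu]
  obtain ⟨he1, he2⟩ := hu1 u (by omega)
  have hu9 : 9 * b + 9 ≤ u := by omega
  have hum : m ≤ u := by omega
  have hun : u ≤ n := le_trans (Nat.le_mul_of_pos_left u hb0) hbn
  have hn9 : 9 ≤ n := by omega
  have h4u : 4 * u ≤ n := le_trans (Nat.mul_le_mul_right u (by omega)) hbn
  have hE1 : 1 ≤ 2 ^ (n - 3 * u) := Nat.one_le_two_pow
  have hn2 : n + 1 ≤ 2 * b * u := by nlinarith
  obtain ⟨r, hr⟩ : ∃ r, r = n - m := ⟨_, rfl⟩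
  have hrn : r + m = n := by omega
  rw [← hr]
  have hkey : (r + 1) * 2 ^ m * (n * n ^ m * (n + 1) ^ (2 * m)) ≤ 2 ^ u * 2 ^ u := by
    calc (r + 1) * 2 ^ m * (n * n ^ m * (n + 1) ^ (2 * m))
        ≤ (n + 1) * 2 ^ m * ((n + 1) * (n + 1) ^ m * (n + 1) ^ (2 * m)) := by
          have h1 : r + 1 ≤ n + 1 := by omega
          have h2 : n ^ m ≤ (n + 1) ^ m := Nat.pow_le_pow_left (by omega) m
          have h3 : n ≤ n + 1 := by omega
          exact Nat.mul_le_mul (Nat.mul_le_mul_right _ h1)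
            (Nat.mul_le_mul_right _ (Nat.mul_le_mul h3 h2))
      _ = (n + 1) ^ (3 * m + 2) * 2 ^ m := by
          rw [show 3 * m + 2 = 1 + (1 + (m + 2 * m)) by ring, pow_add, pow_add, pow_add]
          ring
      _ ≤ (2 * b * u) ^ (3 * m + 2) * 2 ^ m :=
          Nat.mul_le_mul_right _ (Nat.pow_le_pow_left hn2 _)
      _ ≤ 4 ^ u := he1
      _ = 2 ^ u * 2 ^ u := by rw [← mul_pow]; norm_num
  have hN : n * n ^ m * (2 ^ (n - 3 * u) * 2 ^ u) * (n + 1) ^ (2 * m) ≤ r.choose (r / 2) := by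
    have h1 := NumAR_choose r
    have h2 : 2 ^ n = 2 ^ r * 2 ^ m := by rw [← pow_add, hrn]
    have h3 : 2 ^ n = (2 ^ (n - 3 * u) * 2 ^ u) * (2 ^ u * 2 ^ u) := by
      rw [← pow_add, ← pow_add, ← pow_add]
      congr 1
      omega
    have h4 : (r + 1) * 2 ^ m * (n * n ^ m * (2 ^ (n - 3 * u) * 2 ^ u) * (n + 1) ^ (2 * m)) ≤
        (r + 1) * 2 ^ m * r.choose (r / 2) := by
      calc (r + 1) * 2 ^ m * (n * n ^ m * (2 ^ (n - 3 * u) * 2 ^ u) * (n + 1) ^ (2 * m))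
          = ((r + 1) * 2 ^ m * (n * n ^ m * (n + 1) ^ (2 * m))) *
            (2 ^ (n - 3 * u) * 2 ^ u) := by ring
        _ ≤ (2 ^ u * 2 ^ u) * (2 ^ (n - 3 * u) * 2 ^ u) := Nat.mul_le_mul_right _ hkey
        _ = 2 ^ n := by rw [h3]; ring
        _ = 2 ^ r * 2 ^ m := h2
        _ ≤ ((r + 1) * r.choose (r / 2)) * 2 ^ m := Nat.mul_le_mul_right _ h1
        _ = (r + 1) * 2 ^ m * r.choose (r / 2) := by ring
    exact Nat.le_of_mul_le_mul_left h4 (by positivity)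
  refine ⟨2 ^ (n - 3 * u) * 2 ^ u, by positivity, ?_, hN, ?_⟩
  · have : 2 ^ 1 ≤ 2 ^ (n - 3 * u) := Nat.pow_le_pow_right (by norm_num) (by omega)
    omega
  · have h6 : 8 * n + 1 ≤ u * (u + 1) := by
      have h7 : 8 * b ≤ u := by omega
      have h8 : 8 * b * (u + 1) ≤ u * (u + 1) := Nat.mul_le_mul_right _ h7
      have h9 : 8 * b * (u + 1) = 8 * (b * (u + 1)) := by ring
      omega
    have h7 : 2 + m * n ≤ 2 ^ (n - 3 * u) := by
      have h8 : m * n ≤ m * (2 * b * u) := Nat.mul_le_mul_left _ (by omega)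
      have h9 : 2 ^ u ≤ 2 ^ (n - 3 * u) := Nat.pow_le_pow_right (by norm_num) (by omega)
      omega
    exact NumAR_main b n m u (2 ^ (n - 3 * u) * 2 ^ u) (2 ^ (n - 3 * u)) hm hb hn9 hE1 le_rfl
      hnb.le h6 h7

end MP979
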