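import Pool.Agent.Lib.MP_979eef_lc.K.NumS

/-!
# Module NumBR

As `loss` in K/NumB.lean (copy and adapt): the bracket has the additional factor
`2 * 4 ^ (2 * u + 1) ≤ 8 * 2 ^ (4 * n / b)`, `u = n / b`, harmless for large `b`. So it suffices that
`(1 + 2 * log b + 7 * log 2) / b < ε * log 2` and that `n` is large.
-/

set_option autoImplicit false

namespace MP979

open Finset Filter

private theorem NumBR_b (c : ℝ) (hc : 0 < c) :
    ∃ b : ℕ, 8 ≤ b ∧ 1 + 2 * Real.log b + 7 * Real.log 2 ≤ c * b := by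
  have h1 := Real.isLittleO_log_id_atTop.bound (show 0 < c / 4 by positivity)
  have h2 : ∀ᶠ x : ℝ in atTop, 8 ≤ x ∧ 4 * (4 / c) ≤ x := by
    filter_upwards [eventually_ge_atTop 8, eventually_ge_atTop (4 * (4 / c))] with x a1 a2
    exact ⟨a1, a2⟩
  have h3 : ∀ᶠ b : ℕ in atTop, 1 + 2 * Real.log (b : ℝ) + 7 * Real.log 2 ≤ c * b ∧
      (8 : ℝ) ≤ b := by
    have h4 : ∀ᶠ x : ℝ in atTop, 1 + 2 * Real.log x + 7 * Real.log 2 ≤ c * x ∧ (8 : ℝ) ≤ x := by
      filter_upwards [h1, h2, eventually_ge_atTop (2 * (8 / c))] with x a1 a2 a4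
      refine ⟨?_, a2.1⟩
      have hx1 : (1 : ℝ) ≤ x := by linarith [a2.1]
      rw [id, Real.norm_of_nonneg (Real.log_nonneg hx1), Real.norm_of_nonneg (by linarith)] at a1
      have a5 := Real.log_two_lt_d9
      have a6 : 16 ≤ c * x := by
        have : c * (2 * (8 / c)) ≤ c * x := by gcongr
        have h : c * (2 * (8 / c)) = 16 := by field_simp; norm_num
        linarith
      nlinarith
    exact tendsto_natCast_atTop_atTop.eventually h4
  obtain ⟨b, hb1, hb2⟩ := h3.exists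
  exact ⟨b, by exact_mod_cast hb2, hb1⟩

theorem lossR (ε : ℝ) (hε : 0 < ε) : ∃ b : ℕ, 8 ≤ b ∧ ∃ n0 : ℕ, ∀ n ≥ n0,
    (2 : ℝ) ^ ((1 - ε) * n) * (6 * (2 * ((2 * (n / b + 1) - 1 : ℕ) : ℝ) *
      (4 ^ (2 * (n / b + 1) - 1) * (nsub n (2 * (n / b + 1) - 1) : ℝ)) + 2 * n)) ≤
      ((2 ^ (n - 3 * (n / b)) - 1 : ℕ) : ℝ) := by
  have hl2 : 0 < Real.log 2 := Real.log_pos (by norm_num)
  obtain ⟨c, hc⟩ : ∃ c : ℝ, c = ε * Real.log 2 / 2 := ⟨_, rfl⟩
  have hc0 : 0 < c := by rw [hc]; positivity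
  obtain ⟨b, hb8, hb⟩ := NumBR_b c hc0
  refine ⟨b, hb8, ?_⟩
  have hb0 : (0 : ℝ) < b := by
    have : 0 < b := by omega
    exact_mod_cast this
  have hb1 : (1 : ℝ) ≤ b := by
    have : 1 ≤ b := by omega
    exact_mod_cast this
  -- 192 n b ≤ exp (c n) for large n
  have hev : ∀ᶠ n : ℕ in atTop, 192 * (n : ℝ) * b ≤ Real.exp (c * n) := by
    have h1 := (isLittleO_pow_exp_pos_mul_atTop 1 hc0).bound
      (show 0 < 1 / (192 * (b : ℝ)) by positivity)
    have h2 : ∀ᶠ x : ℝ in atTop, 192 * x * b ≤ Real.exp (c * x) := by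
      filter_upwards [h1, eventually_ge_atTop 0] with x a1 a2
      rw [pow_one, Real.norm_of_nonneg a2, Real.norm_of_nonneg (Real.exp_pos _).le] at a1
      calc 192 * x * b = 192 * b * x := by ring
        _ ≤ 192 * b * (1 / (192 * b) * Real.exp (c * x)) := by gcongr
        _ = Real.exp (c * x) := by field_simp
    exact tendsto_natCast_atTop_atTop.eventually h2
  obtain ⟨n1, hn1⟩ := eventually_atTop.mp hev
  refine ⟨max n1 8, fun n hn => ?_⟩
  have hnn1 := hn1 n (le_trans (le_max_left _ _) hn)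
  have hn8 : 8 ≤ n := le_trans (le_max_right _ _) hn
  obtain ⟨u, hu⟩ : ∃ u : ℕ, u = n / b := ⟨_, rfl⟩
  obtain ⟨t, ht⟩ : ∃ t : ℕ, t = 2 * u + 1 := ⟨_, rfl⟩
  have ht' : 2 * (n / b + 1) - 1 = t := by omega
  rw [ht', ← hu]
  have hbu : b * u ≤ n := by
    rw [hu]
    exact Nat.mul_div_le n b
  have h8u : 8 * u ≤ n := by nlinarith
  have htn : t ≤ n := by omega
  have huR : (u : ℝ) ≤ n / b := by
    rw [le_div_iff₀ hb0, mul_comm]
    exact_mod_cast hbu
  have hlb : 0 ≤ Real.log b := Real.log_nonneg hb1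
  have hn0 : (0 : ℝ) ≤ n := Nat.cast_nonneg n
  -- bound for nsub
  obtain ⟨S, hS⟩ : ∃ S : ℝ, S = Real.exp (n / b + 2 * Real.log b * (n / b)) * b := ⟨_, rfl⟩
  have hS1 : 1 ≤ S := by
    rw [hS]
    have : 1 ≤ Real.exp (n / b + 2 * Real.log b * (n / b)) := by
      apply Real.one_le_exp
      positivity
    nlinarith
  have hns : (nsub n t : ℝ) ≤ S := by
    have h1 := nsub_le n t b (by omega) htn
    have h2 : (nsub n t : ℝ) * (b : ℝ) ^ (n - t) ≤ ((b : ℝ) + 1) ^ n := by exact_mod_cast h1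
    have h3 : ((b : ℝ) + 1) ^ n ≤ Real.exp (n / b) * (b : ℝ) ^ n := by
      have h4 : (b : ℝ) + 1 ≤ Real.exp (1 / b) * b := by
        have h5 := Real.add_one_le_exp (1 / (b : ℝ))
        calc (b : ℝ) + 1 = (1 / b + 1) * b := by field_simp; ring
          _ ≤ Real.exp (1 / b) * b := by gcongr
      calc ((b : ℝ) + 1) ^ n ≤ (Real.exp (1 / b) * b) ^ n := by gcongr
        _ = Real.exp (n / b) * (b : ℝ) ^ n := by
            rw [mul_pow, ← Real.exp_nat_mul]
            congr 2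
            ring
    have h6 : (b : ℝ) ^ n = (b : ℝ) ^ t * (b : ℝ) ^ (n - t) := by
      rw [← pow_add]
      congr 1
      omega
    have h7 : (b : ℝ) ^ t ≤ Real.exp (2 * Real.log b * (n / b)) * b := by
      have h8 : (b : ℝ) ^ t = Real.exp (2 * Real.log b * u) * b := by
        rw [ht, pow_succ]
        congr 1
        rw [← Real.exp_log (by positivity : (0 : ℝ) < (b : ℝ) ^ (2 * u)), Real.log_pow]
        push_cast
        congr 1
        ring
      rw [h8]
      gcongr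
    have h9 : (nsub n t : ℝ) * (b : ℝ) ^ (n - t) ≤ (Real.exp (n / b) * (b : ℝ) ^ t) *
        (b : ℝ) ^ (n - t) := by
      calc (nsub n t : ℝ) * (b : ℝ) ^ (n - t) ≤ Real.exp (n / b) * (b : ℝ) ^ n := h2.trans h3
        _ = _ := by rw [h6]; ring
    have h10 : (nsub n t : ℝ) ≤ Real.exp (n / b) * (b : ℝ) ^ t :=
      le_of_mul_le_mul_right h9 (by positivity)
    calc (nsub n t : ℝ) ≤ Real.exp (n / b) * (b : ℝ) ^ t := h10
      _ ≤ Real.exp (n / b) * (Real.exp (2 * Real.log b * (n / b)) * b) := by gcongr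
      _ = S := by rw [hS, Real.exp_add]; ring
  have htn' : (t : ℝ) ≤ n := by exact_mod_cast htn
  obtain ⟨W, hW⟩ : ∃ W : ℝ, W = (4 : ℝ) ^ t := ⟨_, rfl⟩
  have hW1 : 1 ≤ W := by
    rw [hW]
    exact one_le_pow₀ (by norm_num)
  have hWle : W ≤ 4 * Real.exp (4 * Real.log 2 * (n / b)) := by
    have h1 : W = 4 * Real.exp (4 * Real.log 2 * u) := by
      rw [hW, ht, pow_succ, pow_mul, mul_comm]
      congr 1
      rw [← Real.exp_log (by positivity : (0 : ℝ) < ((4 : ℝ) ^ 2) ^ u), Real.log_pow, Real.log_pow]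
      congr 1
      have h2 : Real.log 4 = 2 * Real.log 2 := by
        rw [show (4 : ℝ) = 2 ^ 2 by norm_num, Real.log_pow]
        norm_num
      rw [h2]
      push_cast
      ring
    rw [h1]
    gcongr
  have hbr : 6 * (2 * (t : ℝ) * (W * (nsub n t : ℝ)) + 2 * n) ≤ 24 * n * (W * S) := by
    have h1 : (t : ℝ) * (W * (nsub n t : ℝ)) ≤ n * (W * S) := by gcongr
    have h2 : (n : ℝ) * 1 ≤ n * (W * S) := by
      refine mul_le_mul_of_nonneg_left ?_ hn0
      nlinarith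
    nlinarith
  -- right side
  have hR : (2 : ℝ) ^ ((n : ℝ) - 3 * (n / b)) / 2 ≤ ((2 ^ (n - 3 * u) - 1 : ℕ) : ℝ) := by
    have h1 : 1 ≤ n - 3 * u := by omega
    have h2 : 2 ^ 1 ≤ 2 ^ (n - 3 * u) := Nat.pow_le_pow_right (by norm_num) h1
    have h3 : (2 : ℝ) ^ ((n : ℝ) - 3 * (n / b)) ≤ ((2 ^ (n - 3 * u) : ℕ) : ℝ) := by
      push_cast
      rw [← Real.rpow_natCast]
      apply Real.rpow_le_rpow_of_exponent_le (by norm_num)
      rw [Nat.cast_sub (by omega)]
      push_cast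
      linarith
    have h4 : ((2 ^ (n - 3 * u) - 1 : ℕ) : ℝ) = ((2 ^ (n - 3 * u) : ℕ) : ℝ) - 1 := by
      rw [Nat.cast_sub (by omega), Nat.cast_one]
    have h5 : (2 : ℝ) ≤ ((2 ^ (n - 3 * u) : ℕ) : ℝ) := by exact_mod_cast h2
    rw [h4]
    linarith
  refine le_trans ?_ hR
  rw [← hW]
  calc (2 : ℝ) ^ ((1 - ε) * n) * (6 * (2 * (t : ℝ) * (W * (nsub n t : ℝ)) + 2 * n))
      ≤ (2 : ℝ) ^ ((1 - ε) * n) * (24 * n * (W * S)) := by gcongr
    _ ≤ (2 : ℝ) ^ ((1 - ε) * n) * (24 * n * ((4 * Real.exp (4 * Real.log 2 * (n / b))) * S)) := by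
        gcongr
    _ = (2 : ℝ) ^ ((1 - ε) * n) * (Real.exp (n / b + 2 * Real.log b * (n / b)) *
        Real.exp (4 * Real.log 2 * (n / b))) * (192 * n * b) / 2 := by rw [hS]; ring
    _ = (2 : ℝ) ^ ((1 - ε) * n) * Real.exp (n / b + 2 * Real.log b * (n / b) +
        4 * Real.log 2 * (n / b)) * (192 * n * b) / 2 := by
        rw [Real.exp_add (n / b + 2 * Real.log b * (n / b)) (4 * Real.log 2 * (n / b))]
    _ ≤ (2 : ℝ) ^ ((1 - ε) * n) * Real.exp (n / b + 2 * Real.log b * (n / b) +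
        4 * Real.log 2 * (n / b)) * Real.exp (c * n) / 2 := by gcongr
    _ ≤ (2 : ℝ) ^ ((n : ℝ) - 3 * (n / b)) / 2 := by
        apply div_le_div_of_nonneg_right _ (by norm_num)
        rw [Real.rpow_def_of_pos (by norm_num), Real.rpow_def_of_pos (by norm_num),
          ← Real.exp_add, ← Real.exp_add, Real.exp_le_exp]
        have h1 : (1 + 2 * Real.log b + 7 * Real.log 2) * (n / b) ≤ c * n := by
          calc (1 + 2 * Real.log b + 7 * Real.log 2) * (n / b) ≤ (c * b) * (n / b) := by gcongr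
            _ = c * n := by field_simp
        have h2 : c * n = ε * Real.log 2 * n / 2 := by rw [hc]; ring
        have h3 : Real.log 2 * ((1 - ε) * n) = Real.log 2 * n - 2 * (c * n) := by
          rw [h2]; ring
        rw [h3]
        have h4 : (1 + 2 * Real.log b + 7 * Real.log 2) * (n / b) =
          n / b + 2 * Real.log b * (n / b) + 7 * Real.log 2 * (n / b) := by ring
        rw [h4] at h1
        have h5 : Real.log 2 * ((n : ℝ) - 3 * (n / b)) =
          Real.log 2 * n - 3 * Real.log 2 * (n / b) := by ring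
        rw [h5]
        linarith

end MP979
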