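import Pool.Agent.Lib.MP_979eef_lc.H.ComposeR
import Pool.Agent.Lib.MP_979eef_lc.H.ExpandR
import Pool.Agent.Lib.MP_979eef_lc.H.NumAR
import Pool.Agent.Lib.MP_979eef_lc.H.NumBR
import Pool.Agent.Lib.MP_979eef_lc.K.CountF
import Pool.Agent.Lib.MP_979eef_lc.K.NumC

/-!
# Module MainR

Parameters `m = 2 ^ (10 * b)`, `t1 = n / b + 1`, `ell = 2 ^ (n - 3 * (n / b)) - 1`. The hard outer
function is the monotone function of K/CountF.lean.
-/

set_option autoImplicit false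

namespace MP979

open Finset

theorem hf_krw (ε : ℝ) (hε : 0 < ε) : ∃ m n0 : ℕ, ∀ n ≥ n0,
    ∃ g : (Fin n → Bool) → Bool, Monotone g ∧ NonConst g ∧
      (∀ f : (Fin n → Bool) → Bool, NonConst f → ∀ F : Fml (Fin n × Fin n),
        (∀ x, F.eval x = comp f g x) → (2 : ℝ) ^ ((1 - ε) * n) ≤ F.size) ∧
      ∀ (f : (Fin n → Bool) → Bool) (F : Fml (Fin n × Fin n)) (U : Set (Fin n × Fin n)),
        (∀ x, F.eval x = comp f g x) → F.HazardFree U → ∀ c : Fin n → Bool,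
          NonConst (restr f (blocksOf m U) c) →
            ∃ φ : Fml (Fin n), (∀ a, φ.eval a = restr f (blocksOf m U) c a) ∧
              φ.HazardFree Set.univ ∧
              (Monotone (restr f (blocksOf m U) c) → φ.PosOn Set.univ) ∧
              (φ.size : ℝ) * 2 ^ ((1 - ε) * n) ≤ F.size := by
  obtain ⟨b, hb, n1, hn1⟩ := lossR ε hε
  obtain ⟨n2, hn2⟩ := paramsR b hb
  refine ⟨2 ^ (10 * b), max (max n1 n2) (max (2 ^ (10 * b)) 1), ?_⟩
  intro n hn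
  have hnn1 : n1 ≤ n := le_trans (le_trans (le_max_left _ _) (le_max_left _ _)) hn
  have hnn2 : n2 ≤ n := le_trans (le_trans (le_max_right _ _) (le_max_left _ _)) hn
  have hnm : 2 ^ (10 * b) ≤ n := le_trans (le_trans (le_max_left _ _) (le_max_right _ _)) hn
  have hn0 : 1 ≤ n := le_trans (le_trans (le_max_right _ _) (le_max_right _ _)) hn
  obtain ⟨N, hN, hell, hcode, hc, hcard⟩ := hn2 n hnn2
  have hloss := hn1 n hnn1
  have hm : 0 < 2 ^ (10 * b) := by positivity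
  generalize hmm : 2 ^ (10 * b) = m at hnm hm hcode hcard ⊢
  have hmR : ((2 : ℝ) ^ (10 * b)) = (m : ℝ) := by rw [← hmm]; push_cast; rfl
  rw [hmm, hmR] at hc
  set t1 : ℕ := n / b + 1 with ht1
  set ell : ℕ := 2 ^ (n - 3 * (n / b)) - 1 with hellD
  have hell1 : ell + 1 = 2 ^ (n - 3 * (n / b)) := by
    have : 1 ≤ 2 ^ (n - 3 * (n / b)) := Nat.one_le_two_pow
    omega
  rw [← hell1] at hc hcard
  obtain ⟨g, hg1, hg2, hg3, hg4⟩ := composeR hm hnm hN t1 ell (Nat.le_add_left 1 _) hell hcode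
    hc hcard
  set A : ℕ := 2 * (2 * t1 - 1) * (4 ^ (2 * t1 - 1) * nsub n (2 * t1 - 1)) + 2 * n with hA
  have h3 : (2 : ℝ) ^ ((1 - ε) * (n : ℝ)) * (6 * (A : ℝ)) ≤ (ell : ℝ) := by
    refine le_trans (le_of_eq ?_) hloss
    rw [hA]
    push_cast
    rfl
  have hA1 : 1 ≤ A := by omega
  have hApos : (1 : ℝ) ≤ (A : ℝ) := by exact_mod_cast hA1
  have hp : (0 : ℝ) < (2 : ℝ) ^ ((1 - ε) * (n : ℝ)) := Real.rpow_pos_of_pos (by norm_num) _
  refine ⟨g, hg1, hg2, ?_, ?_⟩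
  · intro f hf F hF
    have h1 := hg3 f hf F hF
    have h2 : (ell : ℝ) ≤ F.size := by exact_mod_cast h1.le
    refine le_trans ?_ (le_trans h3 h2)
    nlinarith
  · intro f F U hF hU c hnc
    obtain ⟨φ, h4, h5, h6, h7⟩ := hg4 f F U hF hU c hnc
    refine ⟨φ, h4, h5, h6, ?_⟩
    have h8 : (φ.size : ℝ) * (ell : ℝ) ≤ 6 * (A : ℝ) * F.size := by exact_mod_cast h7
    have h9 : (0 : ℝ) < 6 * (A : ℝ) := by linarith
    rw [← mul_le_mul_iff_left₀ h9]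
    calc (φ.size : ℝ) * 2 ^ ((1 - ε) * (n : ℝ)) * (6 * (A : ℝ))
        = (φ.size : ℝ) * (2 ^ ((1 - ε) * (n : ℝ)) * (6 * (A : ℝ))) := by ring
      _ ≤ (φ.size : ℝ) * (ell : ℝ) := mul_le_mul_of_nonneg_left h3 (by positivity)
      _ ≤ 6 * (A : ℝ) * F.size := h8
      _ = (F.size : ℝ) * (6 * (A : ℝ)) := by ring

/-- A monotone outer function which is hard after every restriction to a set of blocks. -/
theorem hf_hard (ε : ℝ) (hε : 0 < ε) : ∃ n0 : ℕ, ∀ n ≥ n0,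
    ∃ f : (Fin n → Bool) → Bool, Monotone f ∧ NonConst f ∧
      ∀ (B : Finset (Fin n)) (S : ℝ), 1 ≤ S →
        (∀ c, NonConst (restr f B c) → (monoSize (restr f B c) : ℝ) ≤ S) →
          (2 : ℝ) ^ ((B.card : ℝ) - ε * n) ≤ S := by
  obtain ⟨n0, hn0⟩ := many (ε / 2) (by linarith)
  obtain ⟨n1, hn1⟩ := exists_nat_gt (2 / ε)
  refine ⟨max n0 (max n1 2), fun n hn => ?_⟩
  have hnn0 : n0 ≤ n := le_trans (le_max_left _ _) hn
  have hnn1 : n1 ≤ n := le_trans (le_trans (le_max_left _ _) (le_max_right _ _)) hn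
  have hn2 : 2 ≤ n := le_trans (le_trans (le_max_right _ _) (le_max_right _ _)) hn
  obtain ⟨f, hf1, hf2, hf3⟩ := exists_hard_mono n hn2
  refine ⟨f, hf1, hf2, fun B S hS hB => ?_⟩
  have h1 := hn0 n hnn0 _ hf3
  have h2 := expand_blocks hf1 hf2 B ⌊S⌋₊ (fun c hc => Nat.le_floor (hB c hc))
  have hBn : B.card ≤ n := by
    have := card_le_univ B
    rwa [Fintype.card_fin] at this
  have hfl : ((⌊S⌋₊ : ℕ) : ℝ) ≤ S := Nat.floor_le (by linarith)
  have h3 : (monoSize f : ℝ) + 1 ≤ (2 : ℝ) ^ ((n - B.card : ℕ) : ℝ) * (2 * S) := by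
    have h4 : ((monoSize f + 1 : ℕ) : ℝ) ≤ ((2 ^ (n - B.card) * (⌊S⌋₊ + 1) : ℕ) : ℝ) := by
      exact_mod_cast h2
    push_cast at h4
    rw [Real.rpow_natCast]
    refine le_trans h4 (mul_le_mul_of_nonneg_left (by linarith) (by positivity))
  have hnε : 1 ≤ ε / 2 * n := by
    have h5 : (2 / ε) < n := lt_of_lt_of_le hn1 (by exact_mod_cast hnn1)
    rw [div_lt_iff₀ hε] at h5
    nlinarith
  have h6 : (2 : ℝ) ^ ((1 - ε / 2) * (n : ℝ)) ≤ (2 : ℝ) ^ ((n : ℝ) - B.card) * (2 * S) := by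
    have h7 : (((n - B.card : ℕ) : ℝ)) = (n : ℝ) - B.card := by
      rw [Nat.cast_sub hBn]
    rw [h7] at h3
    linarith
  have h8 : (2 : ℝ) ^ ((B.card : ℝ) - ε * n) * ((2 : ℝ) ^ ((n : ℝ) - B.card) * 2) ≤
      (2 : ℝ) ^ ((1 - ε / 2) * (n : ℝ)) := by
    have h9 : (2 : ℝ) ^ ((B.card : ℝ) - ε * n) * ((2 : ℝ) ^ ((n : ℝ) - B.card) * 2) =
        (2 : ℝ) ^ ((n : ℝ) - ε * n + 1) := by
      rw [← mul_assoc, ← Real.rpow_add (by norm_num), Real.rpow_add_one (by norm_num)]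
      congr 2
      ring
    rw [h9]
    refine Real.rpow_le_rpow_of_exponent_le (by norm_num) ?_
    nlinarith
  have hp : (0 : ℝ) < (2 : ℝ) ^ ((n : ℝ) - B.card) * 2 := by positivity
  rw [← mul_le_mul_iff_left₀ hp]
  refine le_trans h8 (le_trans h6 (le_of_eq ?_))
  ring

end MP979
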