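import Pool.Agent.Lib.MP_979eef_lc.K.Moment
import Pool.Agent.Lib.MP_979eef_lc.H.HardCountR

/-!
# Module SelectR

As K/Select.lean, abstract. For `H ∈ Φ`: by `moment` (K/Moment.lean) with
`Bad σ v = HardR (2 * t1 - 1) (H σ) v`, `p = 8 ^ n / m ^ t1` (`hardR_count`:
`t + 1 - K.card ≥ t1`), `q = Q` and Markov, the number of `e` with `N ^ n ≤ Z e * 4 ^ n` is at most
`m ^ (n * N) * (4 ^ n * (2 ^ n * (Q / N) ^ t1 + 8 ^ n / m ^ t1)) ^ Q`; in total fewer than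
`m ^ (n * N) / 2`; and `E0` has fewer than `m ^ (n * N) / 2` elements.
-/

set_option autoImplicit false

namespace MP979

open Finset

open Classical in
/-- Markov for one system. -/
private lemma SelectR_one {n m N : ℕ} (hm : 0 < m) (hN : 0 < N) (t1 Q : ℕ) (ht1 : 1 ≤ t1)
    (H : (Fin n → Fin N) → (Fin n × Bool → Fin m → Bool) → Bool) (hH : ∀ σ, MonoTabR (H σ)) :
    ((univ.filter (fun e : Fin n → Fin N → Fin m => N ^ n ≤
      (univ.filter (fun σ : Fin n → Fin N =>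
        HardR (2 * t1 - 1) (H σ) (pick e σ))).card * 4 ^ n)).card : ℝ) ≤
      (m : ℝ) ^ (n * N) * ((4 : ℝ) ^ n * (2 ^ n * ((Q : ℝ) / N) ^ t1 +
      8 ^ n / (m : ℝ) ^ t1)) ^ Q := by
  have hm' : (0 : ℝ) < m := by exact_mod_cast hm
  have hN' : (0 : ℝ) < N := by exact_mod_cast hN
  set Bad : (Fin n → Fin N) → (Fin n → Fin m) → Prop :=
    fun σ v => HardR (2 * t1 - 1) (H σ) v with hBadDef
  set Z : (Fin n → Fin N → Fin m) → ℕ := fun e =>
    (univ.filter (fun σ : Fin n → Fin N => Bad σ (pick e σ))).card with hZ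
  set E := univ.filter (fun e : Fin n → Fin N → Fin m =>
    N ^ n ≤ Z e * 4 ^ n) with hE
  have hmom := moment hm hN Bad t1 Q ((8 : ℝ) ^ n / (m : ℝ) ^ t1) (by positivity) (by
    intro σ K w hK
    have h1 := hardR_count (t := 2 * t1 - 1) (H σ) (hH σ) K (by omega) w
    have h2 : ((univ.filter (fun v : Fin n → Fin m => (∀ i ∈ K, v i = w i) ∧ Bad σ v)).card : ℝ) *
        (m : ℝ) ^ (2 * t1 - 1 + 1 - K.card) ≤ 8 ^ n * (m : ℝ) ^ (n - K.card) := by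
      exact_mod_cast h1
    have h3 : (m : ℝ) ^ t1 ≤ (m : ℝ) ^ (2 * t1 - 1 + 1 - K.card) := by
      apply pow_le_pow_right₀
      · exact_mod_cast hm
      · omega
    rw [div_mul_eq_mul_div, le_div_iff₀ (by positivity)]
    refine le_trans (mul_le_mul_of_nonneg_left h3 (by positivity)) h2) Q le_rfl
  have h1 : (E.card : ℝ) * ((N : ℝ) ^ n / 4 ^ n) ^ Q ≤
      ∑ e : Fin n → Fin N → Fin m, ((Z e : ℕ) : ℝ) ^ Q := by
    calc (E.card : ℝ) * ((N : ℝ) ^ n / 4 ^ n) ^ Q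
        = ∑ _e ∈ E, ((N : ℝ) ^ n / 4 ^ n) ^ Q := by rw [sum_const, nsmul_eq_mul]
      _ ≤ ∑ e ∈ E, ((Z e : ℕ) : ℝ) ^ Q := by
          refine sum_le_sum (fun e he => ?_)
          rw [hE, mem_filter] at he
          refine pow_le_pow_left₀ (by positivity) ?_ Q
          rw [div_le_iff₀ (by positivity)]
          exact_mod_cast he.2
      _ ≤ _ := sum_le_sum_of_subset_of_nonneg (subset_univ _) (fun e _ _ => by positivity)
  have h2 : (E.card : ℝ) * ((N : ℝ) ^ n / 4 ^ n) ^ Q ≤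
      (m : ℝ) ^ (n * N) * ((N : ℝ) ^ n * (2 ^ n * ((Q : ℝ) / N) ^ t1 +
        8 ^ n / (m : ℝ) ^ t1)) ^ Q := le_trans h1 hmom
  have h3 : (0 : ℝ) < ((N : ℝ) ^ n / 4 ^ n) ^ Q := by positivity
  rw [← mul_le_mul_iff_left₀ h3]
  refine le_trans h2 (le_of_eq ?_)
  rw [mul_assoc, ← mul_pow]
  congr 2
  field_simp

open Classical in
theorem selectR {n m N : ℕ} (hm : 0 < m) (hN : 0 < N) (t1 Q : ℕ) (ht1 : 1 ≤ t1)
    (Φ : Finset ((Fin n → Fin N) → (Fin n × Bool → Fin m → Bool) → Bool))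
    (hΦ : ∀ H ∈ Φ, ∀ σ, MonoTabR (H σ)) (E0 : Finset (Fin n → Fin N → Fin m))
    (hc : (Φ.card : ℝ) * ((4 : ℝ) ^ n * (2 ^ n * ((Q : ℝ) / N) ^ t1 +
      8 ^ n / (m : ℝ) ^ t1)) ^ Q < 1 / 2)
    (hE0 : 2 * E0.card < m ^ (n * N)) :
    ∃ e : Fin n → Fin N → Fin m, e ∉ E0 ∧
      ∀ H ∈ Φ, (univ.filter (fun σ : Fin n → Fin N =>
        HardR (2 * t1 - 1) (H σ) (pick e σ))).card * 4 ^ n < N ^ n := by
  have hm' : (0 : ℝ) < m := by exact_mod_cast hm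
  by_contra hcon
  push Not at hcon
  set B1 : ((Fin n → Fin N) → (Fin n × Bool → Fin m → Bool) → Bool) →
      Finset (Fin n → Fin N → Fin m) :=
    fun H => univ.filter (fun e : Fin n → Fin N → Fin m => N ^ n ≤
      (univ.filter (fun σ : Fin n → Fin N =>
        HardR (2 * t1 - 1) (H σ) (pick e σ))).card * 4 ^ n) with hB1
  have hcover : (univ : Finset (Fin n → Fin N → Fin m)) ⊆ Φ.biUnion B1 ∪ E0 := by
    intro e _
    rw [mem_union]
    by_cases he : e ∈ E0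
    · exact Or.inr he
    · left
      obtain ⟨H, hHΦ, hH⟩ := hcon e he
      rw [mem_biUnion]
      refine ⟨H, hHΦ, ?_⟩
      rw [hB1, mem_filter]
      exact ⟨mem_univ _, hH⟩
  have htot : Fintype.card (Fin n → Fin N → Fin m) = m ^ (n * N) := by
    rw [Fintype.card_fun, Fintype.card_fun, Fintype.card_fin, Fintype.card_fin, Fintype.card_fin,
      ← pow_mul, mul_comm]
  have h1 : (m ^ (n * N) : ℕ) ≤ ∑ H ∈ Φ, (B1 H).card + E0.card := by
    rw [← htot, ← card_univ]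
    refine le_trans (card_le_card hcover) (le_trans (card_union_le _ _) ?_)
    exact Nat.add_le_add_right card_biUnion_le _
  have h2 : ((∑ H ∈ Φ, (B1 H).card : ℕ) : ℝ) ≤ (Φ.card : ℝ) * ((m : ℝ) ^ (n * N) *
      ((4 : ℝ) ^ n * (2 ^ n * ((Q : ℝ) / N) ^ t1 +
      8 ^ n / (m : ℝ) ^ t1)) ^ Q) := by
    push_cast
    calc ∑ H ∈ Φ, ((B1 H).card : ℝ) ≤ ∑ _H ∈ Φ, ((m : ℝ) ^ (n * N) *
      ((4 : ℝ) ^ n * (2 ^ n * ((Q : ℝ) / N) ^ t1 +
      8 ^ n / (m : ℝ) ^ t1)) ^ Q) :=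
          sum_le_sum (fun H hH => SelectR_one hm hN t1 Q ht1 H (hΦ H hH))
      _ = _ := by rw [sum_const, nsmul_eq_mul]
  have h3 : (0 : ℝ) < (m : ℝ) ^ (n * N) := by positivity
  have h4 : ((∑ H ∈ Φ, (B1 H).card : ℕ) : ℝ) < (m : ℝ) ^ (n * N) * (1 / 2) := by
    refine lt_of_le_of_lt h2 ?_
    have h5 := mul_lt_mul_of_pos_left hc h3
    calc _ = (m : ℝ) ^ (n * N) * ((Φ.card : ℝ) * ((4 : ℝ) ^ n *
        (2 ^ n * ((Q : ℝ) / N) ^ t1 + 8 ^ n / (m : ℝ) ^ t1)) ^ Q) := by ring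
      _ < _ := h5
  have h5 : ((m ^ (n * N) : ℕ) : ℝ) ≤ ((∑ H ∈ Φ, (B1 H).card : ℕ) : ℝ) + (E0.card : ℝ) := by
    exact_mod_cast h1
  have h6 : 2 * (E0.card : ℝ) < (m : ℝ) ^ (n * N) := by exact_mod_cast hE0
  push_cast at h5
  push_cast at h4
  linarith

end MP979
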